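import Pool.Agent.MP_151d89_pr.H30W.Spec2
import Pool.Agent.MP_151d89_pr.H9.Sym

/-! From the finite forms to the chord inequalities on the lattice. -/

set_option autoImplicit false
open MeasureTheory Filter Finset

namespace Pool.Agent.MP_151d89_pr.H31
open Pool.Agent.MP_151d89_pr.H82 Pool.Agent.MP_151d89_pr.H33 Pool.Agent.MP_151d89_pr.H67
open Pool.Agent.MP_151d89_pr.H30 Pool.Agent.MP_151d89_pr.H30W Pool.Agent.MP_151d89_pr.H9
open Pool.Agent.MP_151d89_pr.H5 (ell)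

namespace CHA

/-- the square in which everything happens -/
noncomputable def sq (N : ℕ) : Finset (ℤ × ℤ) :=
  Icc (-(4 * N : ℤ), -(4 * N : ℤ)) (4 * N, 4 * N)

/-- the far site -/
def far (N : ℕ) : ℤ × ℤ := (5 * N, 0)

theorem far_out {N : ℕ} (h : 1 ≤ N) :
    far N ∉ Icc (-(4 * N : ℤ), -(4 * N : ℤ)) ((4 * N : ℤ), (4 * N : ℤ)) := by
  simp only [far, mem_Icc, Prod.le_def]
  omega

theorem card_sq {N : ℕ} (h : 1 ≤ N) : ((sq N).card : ℝ) ≤ 81 * N ^ 2 := by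
  have : (sq N).card ≤ (9 * N) * (9 * N) := by
    rw [sq, Icc_prod_def, card_product]
    simp only [Int.card_Icc]
    exact Nat.mul_le_mul (by omega) (by omega)
  have : ((sq N).card : ℝ) ≤ (9 * N) * (9 * N) := by exact_mod_cast this
  linarith

/-- the labels are concentrated at scale R in the square of size N -/
def Con (μ : Measure Conf) (N : ℕ) (e R : ℝ) : Prop :=
  ∀ z : ℤ × ℤ, nrm z ≤ 3 * N →
    μ.real {f | e < |(lab (off μ (far N)) f z : ℝ) - nb (ell μ) z|} ≤ 1 / R ^ 12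

theorem con (hL : LabStmt) {μ : Measure Conf} (hμ : Gibbs μ) (hT : Triv μ) {B η : ℝ} (hB : 1 ≤ B)
    (hη : 0 < η) : ∀ᶠ R : ℝ in atTop, ∃ N : ℕ, 1 ≤ R ∧ 1 ≤ N ∧ B * R ≤ N ∧ N ≤ 2 * B * R ∧
      Con μ N (η * R) R := by
  filter_upwards [(hL μ hμ hT).2.2.2 (10 * B) η hη, eventually_ge_atTop 1] with R h h1
  have h2 : 1 ≤ B * R := one_le_mul_of_one_le_of_one_le hB h1
  have h3 := Nat.ceil_lt_add_one (zero_le_one.trans h2)
  refine ⟨⌈B * R⌉₊, h1, Nat.one_le_ceil_iff.2 (by linarith), Nat.le_ceil _, by linarith,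
    fun z hz => h _ z ?_ ?_⟩
  · have : nrm (far ⌈B * R⌉₊) = 5 * ⌈B * R⌉₊ := by simp [nrm, far, abs_of_nonneg]
    rw [this]
    push_cast
    linarith
  · have : (nrm z : ℝ) ≤ 3 * ⌈B * R⌉₊ := by exact_mod_cast hz
    linarith

theorem small {B R : ℝ} {N : ℕ} (hB : 1 ≤ B) (hR : 1 ≤ R) (hN : N ≤ 2 * B * R) {k : ℕ}
    (hk : k ≤ 6) : (N : ℝ) ^ k * (1 / R ^ 12) ≤ 64 * B ^ 6 := by
  rw [mul_one_div, div_le_iff₀ (by positivity)]
  have h1 : 1 ≤ 2 * B * R := by nlinarith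
  calc _ ≤ (2 * B * R) ^ k := by gcongr
    _ ≤ (2 * B * R) ^ 6 := pow_le_pow_right₀ h1 hk
    _ = 64 * B ^ 6 * R ^ 6 := by ring
    _ ≤ _ := mul_le_mul_of_nonneg_left (pow_le_pow_right₀ hR (by norm_num)) (by positivity)

theorem pb (hP : PBStmt) (hL : LabStmt) {μ : Measure Conf} (hs : Std μ) {Ψ : ℤ × ℤ → ℝ}
    (hΨ : IsPsi μ Ψ) {B R e : ℝ} {N : ℕ} (hB : 1 ≤ B) (hR : 1 ≤ R) (h1 : 1 ≤ N)
    (hN : N ≤ 2 * B * R) (he : 0 ≤ e) (hc : Con μ N e R) {E n0 : ℝ} {p q : ℤ × ℤ} (hE : 0 ≤ E)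
    (hC : Crn (ell μ) Ψ E p q n0) (hp : nrm p ≤ 3 * N) (hq : nrm q ≤ 3 * N) {j : ℤ} (j1 : n0 ≤ j)
    (j2 : j ≤ N) {Q : Finset (ℤ × ℤ)} (hQ : Q ⊆ sq N)
    (hz : ∀ z ∈ Q, p.1 + (j - (⌈n0 - E - e⌉ - 1)) < z.1 ∧ q.2 + (j - (⌈n0 - E - e⌉ - 1)) < z.2) :
    JJ μ (sq N) (off μ (far N)) j Q ≤ j - n0 + 4 * E + 2 * e + 10 ^ 8 * B ^ 6 := by
  have := hs.gibbs.1
  obtain ⟨c1, c2, c3, c4, c5⟩ := hC
  have m1 := Int.le_ceil (n0 - E - e)
  have m2 := Int.ceil_lt_add_one (n0 - E - e)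
  have m3 : ⌈n0 - E - e⌉ ≤ j := Int.ceil_le.2 (by linarith)
  have hp' := hp
  have hq' := hq
  simp only [nrm, Int.abs_eq_natAbs] at hp' hq'
  have h2 := hP μ hs.gibbs hs.triv (SymA.noDesc hs.nor) Ψ hΨ _ _ (far N) p q (⌈n0 - E - e⌉ - 1) j
    (18 * N) Q (far_out h1) (by simp only; omega) (by simp only; omega) c1 c2 (by simp only; omega)
    (by simp only; omega) (by omega) (by positivity) (fun f hf => by
      have h3 := (hL μ hs.gibbs hs.triv).2.1 (far N) (p.1, q.2) f hf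
      have : ⌈n0 - E - e⌉ - 1 - lab (off μ (far N)) f (p.1, q.2) ≤ 18 * N := by
        simp only [nrm, far, Int.abs_eq_natAbs] at h3 ⊢
        omega
      exact_mod_cast this) hQ hz
  have h3 : μ.real {f | lab (off μ (far N)) f p ≤ ⌈n0 - E - e⌉ - 1 ∨
      lab (off μ (far N)) f q ≤ ⌈n0 - E - e⌉ - 1} ≤ 1 / R ^ 12 + 1 / R ^ 12 := by
    refine le_trans ?_ ((measureReal_union_le _ _).trans (add_le_add (hc p hp) (hc q hq)))
    refine measureReal_mono fun f hf => Or.imp (fun h => ?_) (fun h => ?_) hf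
    · have h' : (lab (off μ (far N)) f p : ℝ) ≤ ⌈n0 - E - e⌉ - 1 := by exact_mod_cast h
      rw [Set.mem_ofPred_eq, lt_abs]
      right
      linarith [(abs_le.1 c3).1]
    · have h' : (lab (off μ (far N)) f q : ℝ) ≤ ⌈n0 - E - e⌉ - 1 := by exact_mod_cast h
      rw [Set.mem_ofPred_eq, lt_abs]
      right
      linarith [(abs_le.1 c4).1]
  have h4 := card_sq h1
  have h5 : 10 * ((sq N).card : ℝ) ^ 2 + 18 * N ≤ 65610 * N ^ 4 + 18 * N ^ 1 := by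
    have := pow_le_pow_left₀ (Nat.cast_nonneg _) h4 2
    linarith
  have h6 := mul_le_mul h5 h3 measureReal_nonneg (by positivity)
  have h7 := small hB hR hN (k := 4) (by norm_num)
  have h8 := small hB hR hN (k := 1) (by norm_num)
  have h9 : 1 ≤ B ^ 6 := one_le_pow₀ hB
  rw [← sq] at h2
  push_cast at h2
  linarith [(abs_le.1 c3).2, (abs_le.1 c4).2]

theorem bd_int {P : Par} {x : ℝ} {N : ℕ} (h : P.bd x) (hx : x ≤ N) : P.bd N ∧
    ∀ y ∈ [P.u1, P.u, P.u2, P.k1, P.k', P.k2, P.a1, P.a2, P.b', P.b'', P.X0, P.Y1],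
      -(N : ℤ) ≤ y ∧ y ≤ N :=
  ⟨fun y hy => (h y hy).trans hx, fun y hy => abs_le.1 (by exact_mod_cast (h y hy).trans hx)⟩

theorem chord (hC : CHFStmt) (hL : LabStmt) {μ : Measure Conf} (hs : Std μ) {B R e m : ℝ} {N : ℕ}
    (hB : 1 ≤ B) (hR : 1 ≤ R) (h1 : 1 ≤ N) (hN : N ≤ 2 * B * R) (hm : e < m) (hc : Con μ N e R)
    {P : Par} {x : ℝ} (hb : P.bd x) (hx : x ≤ N) (hG : GeoZ (ell μ) m P) {A1 A2 s : ℝ}
    (a0 : 0 ≤ A2) (s0 : 0 ≤ s)
    (a1 : JJ μ (sq N) (off μ (far N)) P.k1 (Icc (P.X0, P.Y1) (4 * N, 4 * N)) ≤ A1 + s)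
    (a2 : ∀ j, P.k1 < j → j < P.k2 →
      JJ μ (sq N) (off μ (far N)) j (Icc (P.X0, P.Y1) (4 * N, 4 * N)) ≤ A2 + s) :
    gap P ≤ ((P.u : ℝ) - P.u1) * (P.u2 - P.u) * A1 + (P.u2 - P.u1) * (P.k2 - P.k1) * A2 +
      (32 * B ^ 2 * R ^ 2 * s + 10 ^ 9 * B ^ 6) := by
  have := hs.gibbs.1
  obtain ⟨b0, b1⟩ := bd_int hb hx
  obtain ⟨g1, g2, g3, g4, g5, g6, g7, g8, g9, g10, g11⟩ := hG
  have h2 := hC μ hs.gibbs N _ P ((hL μ hs.gibbs hs.triv).1 _ _ _ (far_out h1)) h1 b0 g1 g2 g3 g4 g5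
  simp only [List.forall_mem_cons] at b1
  have h3 : μ.real {f | ¬ GeoF (off μ (far N)) P f} ≤ 6 * (1 / R ^ 12) := by
    let L : List (ℤ × ℤ) := [(P.u1 + P.a1, P.a1), (P.u2 + P.a2, P.a2), (P.u + P.b', P.b'),
      (P.u + P.b'', P.b''), (P.X0, P.X0 - P.u1), (P.u2 + P.Y1, P.Y1)]
    have h4 : {f | ¬ GeoF (off μ (far N)) P f} ⊆ ⋃ z ∈ L.toFinset,
        {f | e < |(lab (off μ (far N)) f z : ℝ) - nb (ell μ) z|} := fun f hf => by
      by_contra h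
      simp only [Set.mem_iUnion, not_exists, Set.mem_ofPred_eq, not_lt, List.mem_toFinset, L,
        List.forall_mem_cons, abs_le] at h
      refine hf ⟨?_, ?_, ?_, ?_, ?_, ?_⟩
      · exact Int.cast_le (R := ℝ).1 (by linarith [h.1.1])
      · exact Int.cast_le (R := ℝ).1 (by linarith [h.2.1.1])
      · exact Int.cast_le (R := ℝ).1 (by linarith [h.2.2.1.2])
      · exact Int.cast_le (R := ℝ).1 (by linarith [h.2.2.2.1.2])
      · exact Int.cast_lt (R := ℝ).1 (by linarith [h.2.2.2.2.1.2])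
      · exact Int.cast_lt (R := ℝ).1 (by linarith [h.2.2.2.2.2.1.2])
    refine (measureReal_mono h4 (measure_ne_top _ _)).trans ((measureReal_biUnion_finset_le _ _).trans
      ((sum_le_card_nsmul _ _ (1 / R ^ 12) fun z hz => hc z ?_).trans ?_))
    · simp only [List.mem_toFinset, L, List.mem_cons, List.not_mem_nil, or_false] at hz
      rcases hz with e | e | e | e | e | e <;> subst e <;>
        simp only [nrm, Int.abs_eq_natAbs] <;> omega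
    · rw [nsmul_eq_mul]
      have : (L.toFinset.card : ℝ) ≤ 6 := by exact_mod_cast L.toFinset_card_le
      gcongr
  have h4 := small hB hR hN (k := 6) le_rfl
  have h5 := mul_le_mul_of_nonneg_left h3 (show 0 ≤ 10 ^ 6 * (N : ℝ) ^ 6 by positivity)
  have h6 : ∑ j ∈ Ioo P.k1 P.k2, JJ μ (sq N) (off μ (far N)) j (Icc (P.X0, P.Y1) (4 * N, 4 * N)) ≤
      (P.k2 - P.k1) * (A2 + s) := by
    refine (sum_le_card_nsmul _ _ (A2 + s) fun j hj => a2 j (mem_Ioo.1 hj).1 (mem_Ioo.1 hj).2).trans ?_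
    rw [nsmul_eq_mul, Int.card_Ioo]
    have : (((P.k2 - P.k1 - 1).toNat : ℕ) : ℤ) ≤ P.k2 - P.k1 := by omega
    have : (((P.k2 - P.k1 - 1).toNat : ℕ) : ℝ) ≤ P.k2 - P.k1 := by exact_mod_cast this
    gcongr
  have d1 : (0 : ℝ) ≤ P.u - P.u1 ∧ (P.u : ℝ) - P.u1 ≤ 2 * N := by
    exact_mod_cast (by omega : 0 ≤ P.u - P.u1 ∧ P.u - P.u1 ≤ 2 * N)
  have d2 : (0 : ℝ) ≤ P.u2 - P.u ∧ (P.u2 : ℝ) - P.u ≤ 2 * N := by
    exact_mod_cast (by omega : 0 ≤ P.u2 - P.u ∧ P.u2 - P.u ≤ 2 * N)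
  have d3 : (0 : ℝ) ≤ P.u2 - P.u1 ∧ (P.u2 : ℝ) - P.u1 ≤ 2 * N := by
    exact_mod_cast (by omega : 0 ≤ P.u2 - P.u1 ∧ P.u2 - P.u1 ≤ 2 * N)
  have d4 : (0 : ℝ) ≤ P.k2 - P.k1 ∧ (P.k2 : ℝ) - P.k1 ≤ 2 * N := by
    exact_mod_cast (by omega : 0 ≤ P.k2 - P.k1 ∧ P.k2 - P.k1 ≤ 2 * N)
  have h7 := mul_le_mul_of_nonneg_left a1 (mul_nonneg d1.1 d2.1)
  have h8 := mul_le_mul_of_nonneg_left h6 d3.1
  have h9 := mul_le_mul_of_nonneg_right (mul_le_mul d1.2 d2.2 d2.1 (by positivity)) s0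
  have h10 := mul_le_mul_of_nonneg_right (mul_le_mul d3.2 d4.2 d4.1 (by positivity)) s0
  have h11 := mul_le_mul_of_nonneg_right (pow_le_pow_left₀ (Nat.cast_nonneg _) hN 2) s0
  have h12 : 0 ≤ B ^ 6 := by positivity
  rw [← sq] at h2
  linarith

theorem fin {B η : ℝ} (hB : 1 ≤ B) (hη : 0 < η) : ∀ᶠ R : ℝ in atTop,
    η / (128 * B ^ 2) * R + 1 < η * R ∧
      32 * B ^ 2 * R ^ 2 * (2 * (η / (128 * B ^ 2) * R) + 10 ^ 9 * B ^ 6) + 10 ^ 9 * B ^ 6 ≤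
        η * R ^ 3 := by
  filter_upwards [eventually_ge_atTop 1, eventually_ge_atTop (4 / η),
    eventually_ge_atTop (2 * (33 * 10 ^ 9 * B ^ 8) / η)] with R h1 h2 h3
  rw [div_le_iff₀ hη] at h2 h3
  have b2 : 1 ≤ B ^ 2 := one_le_pow₀ hB
  constructor
  · have : η / (128 * B ^ 2) ≤ η / 2 := by gcongr; linarith
    nlinarith
  · have e1 : 32 * B ^ 2 * R ^ 2 * (2 * (η / (128 * B ^ 2) * R)) = η * R ^ 3 / 2 := by
      field_simp
      ring
    have e2 : B ^ 6 ≤ B ^ 8 * R ^ 2 :=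
      (pow_le_pow_right₀ hB (by norm_num)).trans (le_mul_of_one_le_right (by positivity)
        (one_le_pow₀ h1))
    have e3 := mul_le_mul_of_nonneg_right h3 (sq_nonneg R)
    rw [mul_add, e1]
    linarith

theorem sub_sq {N : ℕ} {x y : ℤ} (hx : -(4 * N : ℤ) ≤ x) (hy : -(4 * N : ℤ) ≤ y) :
    Icc (x, y) ((4 * N : ℤ), (4 * N : ℤ)) ⊆ sq N := Icc_subset_Icc ⟨hx, hy⟩ le_rfl

end CHA
open CHA

theorem ch_row (hP : PBStmt) (hC : CHFStmt) (hL : LabStmt) : CHStmt := by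
  intro μ hs Ψ hΨ B η hη
  have hB : 1 ≤ max B 1 := le_max_right _ _
  have h0 : 0 < η / (128 * max B 1 ^ 2) := by positivity
  filter_upwards [con hL hs.gibbs hs.triv hB h0, fin hB hη] with R ⟨N, hR, h1, h2, h3, hc⟩ ⟨f1, f2⟩
    E n0 p q P hE _ hC' hp hq hb hG k1 hX hY
  have h4 : B * R ≤ N := le_trans (by gcongr; exact le_max_left _ _) h2
  have e0 : 0 ≤ η / (128 * max B 1 ^ 2) * R := by positivity
  have hp' : nrm p ≤ N := by exact_mod_cast hp.trans h4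
  have hq' : nrm q ≤ N := by exact_mod_cast hq.trans h4
  obtain ⟨-, b1⟩ := bd_int hb h4
  simp only [List.forall_mem_cons] at b1
  have k12 : P.k1 ≤ P.k2 := hG.2.2.1.trans hG.2.2.2.1
  have k2 : (P.k1 : ℝ) ≤ P.k2 := by exact_mod_cast k12
  have b6 : 0 ≤ max B 1 ^ 6 := by positivity
  have key : ∀ j, P.k1 ≤ j → j ≤ P.k2 → JJ μ (sq N) (off μ (far N)) j
      (Icc (P.X0, P.Y1) (4 * N, 4 * N)) ≤ j - n0 + 4 * E +
        (2 * (η / (128 * max B 1 ^ 2) * R) + 10 ^ 9 * max B 1 ^ 6) := fun j j1 j2 => by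
    have j3 : (P.k1 : ℝ) ≤ j := by exact_mod_cast j1
    have j4 : (j : ℝ) ≤ P.k2 := by exact_mod_cast j2
    have m1 := Int.le_ceil (n0 - E - η / (128 * max B 1 ^ 2) * R)
    refine (pb hP hL hs hΨ hB hR h1 h3 e0 hc hE hC' (by omega) (by omega) (k1.trans j3) (by omega)
      (sub_sq (by omega) (by omega)) fun z hz => ?_).trans (by linarith)
    obtain ⟨z1, z2⟩ := (mem_Icc.1 hz).1
    exact ⟨lt_of_lt_of_le (Int.cast_lt (R := ℝ).1 (by push_cast; linarith)) z1,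
      lt_of_lt_of_le (Int.cast_lt (R := ℝ).1 (by push_cast; linarith)) z2⟩
  refine (chord hC hL hs hB hR h1 h3 (by linarith) hc hb h4 hG (A2 := P.k2 - n0 + 4 * E)
    (by linarith) (by positivity) (key _ le_rfl k12) fun j j1 j2 => ?_).trans (by linarith)
  have j4 : (j : ℝ) ≤ P.k2 := by exact_mod_cast j2.le
  linarith [key j j1.le j2.le]

theorem zv_row (hP : PBStmt) (hZ : ZFStmt) (hC : CHFStmt) (hL : LabStmt) : ZVStmt := by
  intro μ hs Ψ hΨ B η hη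
  have := hs.gibbs.1
  have hB : 1 ≤ max B 1 := le_max_right _ _
  have h0 : 0 < η / (128 * max B 1 ^ 2) := by positivity
  filter_upwards [con hL hs.gibbs hs.triv hB h0, fin hB hη] with R ⟨N, hR, h1, h2, h3, hc⟩ ⟨f1, f2⟩
    E β X P hE n1 β1 β2 X1 X2 n2 hb hG k1 hX hY
  have h4 : B * R ≤ N := le_trans (by gcongr; exact le_max_left _ _) h2
  have e0 : 0 ≤ η / (128 * max B 1 ^ 2) * R := by positivity
  set e := η / (128 * max B 1 ^ 2) * R with he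
  have β3 : β ≤ N := by exact_mod_cast β2.trans h4
  have X3 : X ≤ N := by exact_mod_cast X2.trans h4
  have β4 : 1 ≤ β := Int.cast_le (R := ℝ).1 (by push_cast; linarith)
  have β5 : (0 : ℝ) < β := by linarith
  have X4 : (0 : ℝ) ≤ X := by exact_mod_cast X1
  obtain ⟨-, b1⟩ := bd_int hb h4
  simp only [List.forall_mem_cons] at b1
  have k12 : P.k1 ≤ P.k2 := hG.2.2.1.trans hG.2.2.2.1
  have k2 : (0 : ℝ) ≤ P.k2 := by exact_mod_cast k1.trans k12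
  have b6 : 0 ≤ max B 1 ^ 6 := by positivity
  have m1 := Int.le_ceil (0 - E - e)
  have m2 : ⌈0 - E - e⌉ ≤ 0 := Int.ceil_le.2 (by push_cast; linarith)
  have m3 : 1 - ⌈0 - E - e⌉ ≤ β := Int.cast_le (R := ℝ).1 (by push_cast; linarith)
  have h5 := pb hP hL hs hΨ hB hR h1 h3 e0 hc hE (p := (0, -(3 * β))) (q := (0, -(3 * β))) (n0 := 0)
    ⟨le_rfl, le_rfl, by simpa using n1, by simpa using n1, by linarith⟩
    (by simp only [nrm, Int.abs_eq_natAbs]; omega) (by simp only [nrm, Int.abs_eq_natAbs]; omega)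
    (j := 0) (by simp) (by omega) (sub_sq (x := 1 - ⌈0 - E - e⌉ + 1) (y := 1 - 2 * β) (by omega)
      (by omega)) fun z hz => by
      obtain ⟨z1, z2⟩ := (mem_Icc.1 hz).1
      simp only at z1 z2 ⊢
      omega
  have key : ∀ j, P.k1 ≤ j → j ≤ P.k2 → JJ μ (sq N) (off μ (far N)) j
      (Icc (P.X0, P.Y1) (4 * N, 4 * N)) ≤ 4 * E + P.k2 * X / β +
        (2 * e + 10 ^ 9 * max B 1 ^ 6) := fun j j1 j2 => by
    have j4 : (j : ℝ) ≤ P.k2 := by exact_mod_cast j2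
    have h6 := hZ μ hs.gibbs _ _ _ (1 - ⌈0 - E - e⌉) β X j _
      ((hL μ hs.gibbs hs.triv).1 _ _ _ (far_out h1)) (by omega) β4 X1 (by omega)
      (by simp only; omega) (by simp only; omega) (by simp only; omega)
      (sub_sq (x := P.X0) (y := P.Y1) (by omega) (by omega)) fun z hz => by
        obtain ⟨z1, z2⟩ := (mem_Icc.1 hz).1
        exact ⟨lt_of_lt_of_le (Int.cast_lt (R := ℝ).1 (by push_cast; linarith)) z1,
          lt_of_lt_of_le (Int.cast_lt (R := ℝ).1 (by push_cast; linarith)) z2⟩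
    have h7 : μ.real {f | lab (off μ (far N)) f (X, -(2 * β)) < j} ≤ 1 / R ^ 12 := by
      refine le_trans (measureReal_mono fun f hf => ?_) (hc (X, -(2 * β))
        (by simp only [nrm, Int.abs_eq_natAbs]; omega))
      have h' : (lab (off μ (far N)) f (X, -(2 * β)) : ℝ) < j := by exact_mod_cast hf
      rw [Set.mem_ofPred_eq, lt_abs]
      right
      linarith
    have h8 := mul_le_mul (card_sq h1) h7 measureReal_nonneg (by positivity)
    have h9 := small hB hR h3 (k := 2) (by norm_num)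
    have h10 : (j : ℝ) * X / β ≤ P.k2 * X / β := by gcongr
    rw [← CHA.sq] at h6
    push_cast at h5
    linarith
  refine (chord hC hL hs hB hR h1 h3 (by linarith) hc hb h4 hG (A2 := 4 * E + P.k2 * X / β)
    (by positivity) (by positivity) (key _ le_rfl k12) fun j j1 j2 =>
      key j j1.le j2.le).trans (by linarith)

end Pool.Agent.MP_151d89_pr.H31
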