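import Pool.Agent.MP_151d89_pr.H95.Mean

/-!
Counting in the box with a ridge on the left side: prediction bound, strips, private channels.
-/

set_option autoImplicit false
open MeasureTheory Finset Filter

namespace Pool.Agent.MP_151d89_pr.H31
open Pool.Agent.MP_151d89_pr.H82 Pool.Agent.MP_151d89_pr.H33 Pool.Agent.MP_151d89_pr.H67
  Pool.Agent.MP_151d89_pr.H30 Pool.Agent.MP_151d89_pr.H58
open Classical

/-- few configurations are predictable, for any rule that uses lexicographically earlier sites -/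
theorem predG {E : ℤ × ℤ → Conf → Prop} (hE : ∀ (z : ℤ × ℤ) (g : Conf), ∃ p : ℤ, ∀ a : Conf,
    (∀ y : ℤ × ℤ, y.2 < z.2 ∨ (y.2 = z.2 ∧ y.1 < z.1) → a y = g y) → (E z a ↔ a z ≠ p))
    (Λ : Finset (ℤ × ℤ)) (g : Conf) {t : ℝ} (h0 : 0 ≤ t) (h1 : t ≤ 1) :
    ∑ f ∈ FS Λ g, t ^ (num Λ fun y => E y f) ≤ (1 + t) ^ Λ.card := by
  induction Λ using lex_ind generalizing g with
  | h0 => rw [FS_empty]; split_ifs <;> simp [num]
  | h1 z Λ h ih =>
    have hz : z ∉ Λ := fun e => by have := h z e; omega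
    obtain ⟨p, hp⟩ := hE z g
    have key : ∀ v : ℤ, ∑ a ∈ FS Λ (Function.update g z v),
        t ^ (num (insert z Λ) fun y => E y a) ≤ (if v = p then 1 else t) * (1 + t) ^ Λ.card := by
      intro v
      refine le_trans (le_of_eq ?_) (mul_le_mul_of_nonneg_left (ih (Function.update g z v))
        (by split_ifs <;> positivity))
      rw [mul_sum]
      refine sum_congr rfl fun a ha => ?_
      have h2 := (mem_FS.1 ha).2
      have h3 := hp a fun y hy => by
        rw [h2 y fun e => by have := h y e; omega, Function.update_of_ne fun e => by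
          rw [e] at hy; omega]
      rw [h2 z hz, Function.update_self] at h3
      unfold num
      rw [filter_insert]
      by_cases e : v = p
      · rw [if_neg fun e' => h3.1 e' e, if_pos e, one_mul]
      · rw [if_pos (h3.2 e), if_neg e, card_insert_of_notMem fun e => hz (mem_filter.1 e).1,
          pow_succ']
    rw [split Λ g hz fun e => by have := h _ e; simp only at this; omega,
      card_insert_of_notMem hz, pow_succ']
    refine (add_le_add (key _) (key _)).trans ?_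
    rw [← add_mul]
    refine mul_le_mul_of_nonneg_right ?_ (by positivity)
    split_ifs
    · omega
    all_goals linarith

/-- a set of fillings with few errors is small -/
theorem few {E : ℤ × ℤ → Conf → Prop} (hE : ∀ (z : ℤ × ℤ) (g : Conf), ∃ p : ℤ, ∀ a : Conf,
    (∀ y : ℤ × ℤ, y.2 < z.2 ∨ (y.2 = z.2 ∧ y.1 < z.1) → a y = g y) → (E z a ↔ a z ≠ p))
    {Λ : Finset (ℤ × ℤ)} {g : Conf} {S : Finset Conf} (hS : S ⊆ FS Λ g) {K p : ℝ} (hp : 0 ≤ p)
    (hK : ∀ f ∈ S, ((num Λ fun y => E y f : ℕ) : ℝ) ≤ K) :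
    (S.card : ℝ) ≤ Real.exp (K * p + Λ.card * Real.exp (-p)) := by
  have h0 := (Real.exp_pos (-p)).le
  have h1 : Real.exp (-p) ≤ 1 := Real.exp_le_one_iff.2 (by linarith)
  have h2 := predG hE Λ g h0 h1
  have h3 : (S.card : ℝ) * Real.exp (-(K * p)) ≤
      ∑ f ∈ FS Λ g, Real.exp (-p) ^ (num Λ fun y => E y f) := by
    refine le_trans ?_ (sum_le_sum_of_subset_of_nonneg hS fun _ _ _ => by positivity)
    rw [← nsmul_eq_mul, ← sum_const]
    refine sum_le_sum fun f hf => ?_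
    rw [← Real.exp_nat_mul]
    exact Real.exp_le_exp.2 (by nlinarith [hK f hf])
  have h4 : (1 + Real.exp (-p)) ^ Λ.card ≤ Real.exp (Λ.card * Real.exp (-p)) := by
    rw [Real.exp_nat_mul]
    exact pow_le_pow_left₀ (by positivity) (by linarith [Real.add_one_le_exp (Real.exp (-p))]) _
  rw [Real.exp_neg (K * p), ← div_eq_mul_inv, div_le_iff₀ (Real.exp_pos _)] at h3
  rw [Real.exp_add, mul_comm]
  exact h3.trans (mul_le_mul_of_nonneg_right (h2.trans h4) (Real.exp_pos _).le)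

theorem tele (φ : ℤ → ℝ) (a : ℤ) (n : ℕ) :
    ∑ y ∈ Ioc a (a + n), (φ y - φ (y - 1)) = φ (a + n) - φ a := by
  induction n with
  | zero => simp
  | succ n ih =>
    have : Ioc a (a + (n + 1 : ℕ)) = insert (a + (n + 1 : ℕ)) (Ioc a (a + n)) := by
      ext y
      simp only [mem_Ioc, mem_insert]
      omega
    rw [this, sum_insert (by simp only [mem_Ioc]; omega), ih]
    have : a + (n + 1 : ℕ) - 1 = a + n := by omega
    rw [this]
    ring

/-- the open box -/
noncomputable def rect (R n : ℤ) : Finset (ℤ × ℤ) := Ioo 0 R ×ˢ Ioo (-n) n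

theorem mem_rect {R n : ℤ} {p : ℤ × ℤ} :
    p ∈ rect R n ↔ (0 < p.1 ∧ p.1 < R) ∧ (-n < p.2 ∧ p.2 < n) := by simp [rect]

theorem card_rect (R n : ℕ) : ((rect R n).card : ℝ) ≤ 2 * n * R := by
  have : (rect R n).card ≤ R * (2 * n) := by
    rw [rect, card_product, Int.card_Ioo, Int.card_Ioo]
    exact Nat.mul_le_mul (by omega) (by omega)
  have : ((rect R n).card : ℝ) ≤ R * (2 * n) := by exact_mod_cast this
  linarith

/-- the barrier -/
def bar (R n : ℤ) : Conf := fun p => min (p.1 - |p.2|) (2 * R - 2 * n - p.1 + |p.2|)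

theorem hom_bar (R n : ℤ) : Hom (bar R n) := fun x y h => by
  simp only [bar, Int.abs_eq_natAbs] at h ⊢
  omega

theorem le_bar {R n : ℤ} (h : n ≤ R) {f : Conf} (hf : f ∈ FS (rect R n) (bar R n)) {x : ℤ}
    (hx : 0 ≤ x) (y : ℤ) : f (x, y) ≤ x - |y| ∧ -x - |y| ≤ f (x, y) := by
  obtain ⟨h1, h2⟩ := mem_FS.1 hf
  have h3 := h2 (0, y) (by simp [mem_rect])
  have h4 := (lip h1 (x, y) (0, y)).1
  have h5 := (lip h1 (0, y) (x, y)).1
  simp only [bar, Int.abs_eq_natAbs] at *
  omega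

/-- the vertical prediction is wrong -/
def Ev (z : ℤ × ℤ) (f : Conf) : Prop := f z ≠ f (z.1, z.2 - 1) + if z.2 ≤ 0 then 1 else -1

theorem ev_pred (z : ℤ × ℤ) (g : Conf) : ∃ p : ℤ, ∀ a : Conf,
    (∀ y : ℤ × ℤ, y.2 < z.2 ∨ (y.2 = z.2 ∧ y.1 < z.1) → a y = g y) → (Ev z a ↔ a z ≠ p) :=
  ⟨_, fun a h => by rw [Ev, h (z.1, z.2 - 1) (Or.inl (by simp))]⟩

theorem ev_num {R : ℤ} {a n : ℕ} (h : (n : ℤ) ≤ R) (ha : (a : ℤ) ≤ R) {f : Conf}
    (hf : f ∈ FS (rect R n) (bar R n)) : ((num (rect a n) fun y => Ev y f : ℕ) : ℝ) ≤ 2 * a ^ 2 := by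
  obtain ⟨h1, h2⟩ := mem_FS.1 hf
  rw [num_eq, rect, sum_product]
  refine (sum_le_card_nsmul _ _ (2 * (a : ℝ)) fun x hx => ?_).trans ?_
  · rw [mem_Ioo] at hx
    let φ : ℤ → ℝ := fun y => if y ≤ 0 then ((y : ℝ) - f (x, y)) / 2
      else ((y : ℝ) + f (x, y)) / 2 - f (x, 0)
    have h3 : ∀ y, ind (Ev (x, y) f) = φ y - φ (y - 1) := fun y => by
      have h4 := h1 (x, y) (x, y - 1) (by simp)
      rw [abs_eq (by norm_num)] at h4
      have h5 : ((f (x, y) : ℤ) : ℝ) = f (x, y - 1) + 1 ∨ ((f (x, y) : ℤ) : ℝ) = f (x, y - 1) - 1 := by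
        rcases h4 with e | e
        · exact Or.inl (by exact_mod_cast (by omega))
        · exact Or.inr (by exact_mod_cast (by omega))
      have h6 : Ev (x, y) f ↔ (y ≤ 0 ∧ ((f (x, y) : ℤ) : ℝ) = f (x, y - 1) - 1) ∨
          (0 < y ∧ ((f (x, y) : ℤ) : ℝ) = f (x, y - 1) + 1) := by
        norm_cast
        simp only [Ev]
        split_ifs <;> omega
      have h7 : y = 1 → f (x, y - 1) = f (x, 0) := fun e => by rw [e, sub_self]
      simp only [φ, ind]
      push_cast
      by_cases e : Ev (x, y) f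
      · rw [if_pos e]
        rcases h6.1 e with ⟨e1, e2⟩ | ⟨e1, e2⟩
        · rw [if_pos e1, if_pos (by omega)]; linarith
        · rw [if_neg (by omega)]
          split_ifs with e3
          · rw [e2, h7 (by omega), show y = 1 by omega]; push_cast; ring
          · linarith
      · rw [if_neg e]
        rw [h6, not_or, not_and, not_and] at e
        by_cases e1 : y ≤ 0
        · rw [if_pos e1, if_pos (by omega)]
          linarith [h5.resolve_right (e.1 e1)]
        · have e2 := h5.resolve_left (e.2 (by omega))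
          rw [if_neg e1]
          split_ifs with e3
          · rw [e2, h7 (by omega), show y = 1 by omega]; push_cast; ring
          · linarith
    rcases Nat.eq_zero_or_pos n with rfl | hn
    · simp
    have h5 : Ioo (-(n : ℤ)) n ⊆ Ioc (-(n : ℤ)) (-n + (2 * n : ℕ)) := fun y hy => by
      simp only [mem_Ioo, mem_Ioc] at *
      omega
    refine (sum_le_sum_of_subset_of_nonneg h5 fun _ _ _ => by unfold ind; positivity).trans ?_
    rw [sum_congr rfl fun y _ => h3 y, tele, show -(n : ℤ) + (2 * n : ℕ) = n by omega]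
    have e1 : f (x, n) = x - n := by
      rw [h2 _ (by simp [mem_rect])]
      simp only [bar, Int.abs_eq_natAbs]
      omega
    have e2 : f (x, -n) = x - n := by
      rw [h2 _ (by simp [mem_rect])]
      simp only [bar, Int.abs_eq_natAbs]
      omega
    have e3 : -(a : ℤ) ≤ f (x, 0) := by
      have := (le_bar h hf hx.1.le 0).2
      simp only [abs_zero] at this
      omega
    have e4 : -(a : ℝ) ≤ f (x, 0) := by exact_mod_cast e3
    have e5 : (x : ℝ) ≤ a := by exact_mod_cast hx.2.le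
    simp only [φ]
    rw [if_neg (by omega), if_pos (by omega), e1, e2]
    push_cast
    linarith
  · rw [Int.card_Ioo, nsmul_eq_mul]
    have : ((((a : ℤ) - 0 - 1).toNat : ℕ) : ℝ) ≤ a := Nat.cast_le.2 (by omega)
    nlinarith [a.cast_nonneg (α := ℝ)]

/-- the number of level lines on the left of a site, each bead in a private window -/
def bd (n w : ℤ) (c : ℤ × ℤ → ℤ) (x y : ℤ) : ℤ :=
  max 0 (min (n - |y|) ((x / w - |y| + 1) / 2)) +
    if |y| ≤ x / w ∧ x / w + |y| < 2 * n ∧ (x / w + y) % 2 = 0 ∧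
      c ((x / w + y) / 2, (x / w - y) / 2) < x % w then 1 else 0

theorem succ_div {w : ℤ} (hw : 0 < w) (x : ℤ) :
    ((x + 1) / w = x / w ∧ (x + 1) % w = x % w + 1) ∨
      ((x + 1) / w = x / w + 1 ∧ (x + 1) % w = 0 ∧ x % w = w - 1) := by
  have h1 := Int.emod_nonneg x hw.ne'
  have h2 := Int.emod_lt_of_pos x hw
  have h3 := Int.emod_add_mul_ediv x w
  by_cases e : x % w + 1 < w
  · exact Or.inl ((Int.ediv_emod_unique hw).2 ⟨by linarith, by omega, e⟩)
  · have := (Int.ediv_emod_unique (a := x + 1) (r := 0) (q := x / w + 1) hw).2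
      ⟨by rw [mul_add]; omega, le_rfl, hw⟩
    exact Or.inr ⟨this.1, this.2, by omega⟩

theorem hom_bd (n : ℤ) {w : ℤ} (hw : 0 < w) {c : ℤ × ℤ → ℤ} (hc : ∀ p, 0 ≤ c p ∧ c p < w) :
    Hom fun p => p.1 - |p.2| - 2 * bd n w c p.1 p.2 := by
  refine CmpAux.hom_of (fun x y => ?_) fun x y => ?_
  · simp only [bd]
    rcases succ_div hw x with ⟨e1, e2⟩ | ⟨e1, e2, e3⟩
    · rw [e1, e2]
      simp only [Int.abs_eq_natAbs]
      split_ifs <;> omega
    · rw [e1, e2, e3]
      have h1 := hc ((x / w + y) / 2, (x / w - y) / 2)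
      have h2 := hc ((x / w + 1 + y) / 2, (x / w + 1 - y) / 2)
      simp only [Int.abs_eq_natAbs]
      split_ifs <;> omega
  · simp only [bd, Int.abs_eq_natAbs]
    split_ifs <;> omega

/-- private channels -/
theorem low {n w : ℕ} (hw : 1 ≤ w) {R : ℤ} (hR : 2 * n * w ≤ R) :
    w ^ (n * n) ≤ (FS (rect R n) (bar R n)).card := by
  have hw' : (0 : ℤ) < w := by omega
  let S : Finset (ℤ × ℤ) := Ico (0 : ℤ) n ×ˢ Ico (0 : ℤ) n
  let c : (S → Fin w) → ℤ × ℤ → ℤ := fun γ p => if h : p ∈ S then (γ ⟨p, h⟩ : ℕ) else 0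
  have hc : ∀ γ p, 0 ≤ c γ p ∧ c γ p < w := fun γ p => by
    simp only [c]
    split_ifs with h
    · have := (γ ⟨p, h⟩).2
      omega
    · omega
  let F : (S → Fin w) → Conf := fun γ =>
    (fun p => p.1 - |p.2| - 2 * bd n w (c γ) p.1 p.2) ⊓ fun p => 2 * R - 2 * n - p.1 + |p.2|
  have hn : (n : ℤ) ≤ R := by nlinarith
  have h1 : (univ : Finset (S → Fin w)).card = w ^ (n * n) := by simp [S]
  rw [← h1]
  have key : ∀ γ γ' : S → Fin w, F γ = F γ' → ∀ p, γ' p ≤ γ p := fun γ γ' h p => by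
    obtain ⟨⟨i, j⟩, hp⟩ := p
    have hp' : (0 ≤ i ∧ i < n) ∧ 0 ≤ j ∧ j < n := by simpa [S] using hp
    have c1 : c γ (i, j) = (γ ⟨(i, j), hp⟩ : ℕ) := dif_pos hp
    have c2 : c γ' (i, j) = (γ' ⟨(i, j), hp⟩ : ℕ) := dif_pos hp
    obtain ⟨b1, b2⟩ := hc γ' (i, j)
    have e := (Int.ediv_emod_unique (a := c γ' (i, j) + w * (i + j)) (r := c γ' (i, j))
      (q := i + j) hw').2 ⟨rfl, b1, b2⟩
    have h2 := congrFun h (c γ' (i, j) + w * (i + j), i - j)
    simp only [F, Pi.inf_apply, bd, e.1, e.2] at h2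
    rw [show (i + j + (i - j)) / 2 = i by omega, show (i + j - (i - j)) / 2 = j by omega] at h2
    have h3 : 2 * n - (i + j) - 1 ≤ w * (2 * n - (i + j) - 1) :=
      le_mul_of_one_le_left (by omega) (by omega)
    have h4 : 2 * n - (i + j) ≤ R - (c γ' (i, j) + w * (i + j)) := by nlinarith
    rw [Fin.le_def]
    simp only [Int.abs_eq_natAbs] at h2
    generalize w * (i + j) = u at *
    split_ifs at h2 <;> omega
  refine card_le_card_of_injOn F (fun γ _ => mem_coe.2 (mem_FS.2 ⟨hom_inf (hom_bd n hw' (hc γ))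
    (fun x y h => ?_) (z := (0, 0)) ?_, fun p hp => ?_⟩)) fun γ _ γ' _ h =>
    funext fun p => le_antisymm (key _ _ h.symm p) (key _ _ h p)
  · simp only [Int.abs_eq_natAbs] at h ⊢
    omega
  · simp only [abs_zero]
    omega
  · rw [mem_rect] at hp
    have h5 : p.1 ≤ 0 → p.1 / w < 0 ∨ (p.1 / w = 0 ∧ p.1 % w = 0) := fun e => by
      rcases e.eq_or_lt with e | e
      · simp [e]
      · exact Or.inl (Int.ediv_neg_of_neg_of_pos e hw')
    have h6 : R ≤ p.1 → 2 * n ≤ p.1 / w := fun e => Int.le_ediv_of_mul_le hw' (hR.trans e)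
    have h7 := hc γ ((p.1 / w + p.2) / 2, (p.1 / w - p.2) / 2)
    simp only [F, Pi.inf_apply, bd, bar, Int.abs_eq_natAbs]
    split_ifs <;> omega

/-- removing k columns next to the ridge -/
def srg (a k : ℤ) (f : Conf) : Conf :=
  (fun p => -|p.1| - |p.2|) ⊔ fun p => if p.1 ≤ a - k then f (a, p.2) + p.1 - a else f (p.1 + k, p.2) - k

theorem srg_mem {R a k n : ℤ} (hn : n ≤ R) (hk : 0 ≤ k) (hka : k ≤ a) (ha : a ≤ R) {f : Conf}
    (hf : f ∈ FS (rect (R + k) n) (bar (R + k) n)) (h : 2 * k - a ≤ f (a, 0)) :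
    srg a k f ∈ FS (rect R n) (bar R n) ∧ ∀ x y, a ≤ x → f (x, y) = srg a k f (x - k, y) + k := by
  obtain ⟨h1, h2⟩ := mem_FS.1 hf
  have h3 : ∀ x y, a ≤ x → k - (x - k) - |y| ≤ f (x, y) := fun x y hx => by
    have := (lip h1 (a, 0) (x, y)).1
    simp only [Int.abs_eq_natAbs] at *
    omega
  have h4 := fun y => le_bar (show n ≤ R + k by omega) hf (show 0 ≤ a by omega) y
  refine ⟨mem_FS.2 ⟨hom_sup (fun x y h => ?_) (CmpAux.hom_of (fun x y => ?_) fun x y => ?_)
    (z := (0, 0)) ?_, fun p hp => ?_⟩, fun x y hx => ?_⟩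
  · simp only [Int.abs_eq_natAbs] at h ⊢
    omega
  · have := h1 (x + 1 + k, y) (x + k, y) (by simp)
    simp only
    split_ifs with e1 e2 e2
    · rw [abs_eq (by norm_num)]; omega
    · omega
    · rw [show a = x + k by omega]
      rw [abs_eq (by norm_num)] at this ⊢
      omega
    · rw [abs_eq (by norm_num)] at this ⊢
      omega
  · have h5 := h1 (a, y + 1) (a, y) (by simp)
    have h6 := h1 (x + k, y + 1) (x + k, y) (by simp)
    simp only
    rw [abs_eq (by norm_num)] at h5 h6 ⊢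
    split_ifs <;> omega
  · have h5 := (lip h1 (a, 0) (0, 0)).2
    have h6 := h2 (0, 0) (by simp [mem_rect])
    simp only [bar, Int.abs_eq_natAbs] at *
    rw [if_pos (by omega)]
    omega
  · rw [mem_rect] at hp
    have h5 := h4 p.2
    have h6 := h2 (a, p.2)
    have h7 := h2 (p.1 + k, p.2)
    have h8 := h3 (p.1 + k) p.2
    simp only [mem_rect, srg, Pi.sup_apply, bar, Int.abs_eq_natAbs] at *
    split_ifs with e
    · by_cases e' : -n < p.2 ∧ p.2 < n
      · omega
      · have := h6 (by omega)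
        omega
    · have := h7 (by omega)
      omega
  · have h5 := h3 x y hx
    simp only [srg, Pi.sup_apply, sub_add_cancel]
    split_ifs with e
    · rw [show x = a by omega] at h5 ⊢
      simp only [Int.abs_eq_natAbs] at *
      omega
    · simp only [Int.abs_eq_natAbs] at *
      omega

theorem srg_card {R : ℤ} {a k n : ℕ} (hn : (n : ℤ) ≤ R) (hka : k ≤ a) (ha : (a : ℤ) ≤ R) {p : ℝ}
    (hp : 0 ≤ p) : (((FS (rect (R + k) n) (bar (R + k) n)).filter
      fun f => 2 * (k : ℤ) - a ≤ f (a, 0)).card : ℝ) ≤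
      Real.exp (2 * a ^ 2 * p + 2 * n * a * Real.exp (-p)) * (FS (rect R n) (bar R n)).card := by
  have hm := fun f hf h => srg_mem (f := f) hn (k := k) (by omega) (by omega) ha hf h
  rw [card_eq_sum_card_fiberwise (f := srg a k) (t := FS (rect R n) (bar R n)) fun f hf =>
    (hm f (mem_filter.1 hf).1 (mem_filter.1 hf).2).1, Nat.cast_sum, mul_comm (Real.exp _),
    ← nsmul_eq_mul (FS (rect R n) (bar R n)).card]
  refine sum_le_card_nsmul _ _ _ fun b _ => ?_
  rcases (((FS (rect (R + k) n) (bar (R + k) n)).filter fun f => 2 * (k : ℤ) - a ≤ f (a, 0)).filter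
    fun f => srg a k f = b).eq_empty_or_nonempty with e | ⟨f₀, h₀⟩
  · rw [e]
    simp only [card_empty, Nat.cast_zero]
    positivity
  simp only [mem_filter] at h₀
  refine (few ev_pred (Λ := rect a n) (g := f₀) (fun f hf => ?_) hp (K := 2 * a ^ 2)
    fun f hf => ?_).trans (Real.exp_le_exp.2 ?_)
  · simp only [mem_filter] at hf
    refine mem_FS.2 ⟨(mem_FS.1 hf.1.1).1, fun y hy => ?_⟩
    by_cases e : (a : ℤ) ≤ y.1
    · rw [show y = (y.1, y.2) from rfl, (hm f hf.1.1 hf.1.2).2 _ _ e, (hm f₀ h₀.1.1 h₀.1.2).2 _ _ e,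
        hf.2, h₀.2]
    · have : y ∉ rect (R + k) n := by
        rw [mem_rect] at hy ⊢
        omega
      rw [(mem_FS.1 hf.1.1).2 y this, (mem_FS.1 h₀.1.1).2 y this]
  · simp only [mem_filter] at hf
    exact ev_num (by omega) (by omega) hf.1.1
  · have := mul_le_mul_of_nonneg_right (card_rect a n) (Real.exp_pos (-p)).le
    linarith

/-- saturation next to the ridge, for a suitable length of the box -/
theorem ts (ρ q : ℕ) (hq : 1 ≤ q) : ∃ m L : ℕ, 1 ≤ m ∧ ∀ n k a R : ℕ, 1 ≤ k → k ≤ a → a ≤ q * k →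
    m * k ≤ n → n ≤ R → R ≤ ρ * n → ∃ R' : ℕ, R ≤ R' ∧ R' ≤ L * n ∧
      mn (rect R' n) (bar R' n) (a, 0) ≤ 3 * k - a := by
  obtain ⟨w, hw1, hw⟩ : ∃ w : ℕ, 1 ≤ w ∧ Real.exp (2 * ρ + 1) ≤ w :=
    ⟨⌈Real.exp (2 * ρ + 1)⌉₊, Nat.one_le_ceil_iff.2 (Real.exp_pos _), Nat.le_ceil _⟩
  refine ⟨576 * w ^ 2 * q ^ 3, ρ + 3 * w, Nat.succ_le_of_lt (by positivity), fun n k a R hk hka hqk hm hn hR => ?_⟩
  have w1 : (1 : ℝ) ≤ w := by exact_mod_cast hw1
  have q1 : (1 : ℝ) ≤ q := by exact_mod_cast hq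
  have k1 : (1 : ℝ) ≤ k := by exact_mod_cast hk
  have a1 : (a : ℝ) ≤ q * k := by exact_mod_cast hqk
  have a0 : (0 : ℝ) ≤ a := a.cast_nonneg
  have m1 : 576 * (w : ℝ) ^ 2 * q ^ 3 * k ≤ n := by exact_mod_cast hm
  have m2 : q * k ≤ n := le_trans (Nat.mul_le_mul_right k (by
    calc q = 1 * 1 * q ^ 1 := by simp
      _ ≤ _ := by gcongr <;> [omega; exact Nat.one_le_pow _ _ hw1; omega])) hm
  have m3 : k ≤ n := le_trans (Nat.le_mul_of_pos_left k hq) m2
  have n1 : (1 : ℝ) ≤ n := by exact_mod_cast hk.trans m3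
  set p : ℝ := 24 * w * q with hp
  have p0 : 0 < p := by positivity
  set s : ℝ := 2 * a ^ 2 * p + 2 * n * a * Real.exp (-p) with hs
  set J := 2 * n * w / k + 1 with hJ
  have J1 : 2 * n * w ≤ J * k := (Nat.lt_div_mul_add hk).le.trans (by rw [hJ, add_mul, one_mul])
  have J2 : J * k ≤ 3 * w * n := by
    have := Nat.div_mul_le_self (2 * n * w) k
    have h2 : n ≤ w * n := Nat.le_mul_of_pos_left n hw1
    rw [hJ, add_mul]
    nlinarith
  let Z : ℕ → ℝ := fun j => lz (rect (R + j * k : ℕ) n) (bar (R + j * k : ℕ) n)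
  obtain ⟨j, hj, hZ⟩ : ∃ j < J, Z j + (s + 2 * q) ≤ Z (j + 1) := by
    by_contra hc
    push Not at hc
    have h1 : ∀ j ≤ J, Z j ≤ Z 0 + j * (s + 2 * q) := fun j => by
      induction j with
      | zero => simp
      | succ j ih =>
        intro h
        have := ih (by omega)
        have := hc j h
        push_cast
        linarith
    have h2 : Z 0 ≤ 2 * ρ * n ^ 2 := by
      have h3 : (R : ℝ) ≤ ρ * n := by exact_mod_cast hR
      have h4 := card_rect (R + 0 * k) n
      refine ((lz_le _ _).trans h4).trans ?_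
      push_cast
      nlinarith
    have h3 : (2 * ρ + 1) * (n : ℝ) ^ 2 ≤ Z J := by
      have h4 := low (n := n) hw1 (R := (R + J * k : ℕ)) (by exact_mod_cast J1.trans (by omega))
      have h5 := (Nat.cast_le (α := ℝ)).2 h4
      rw [Nat.cast_pow] at h5
      refine le_trans ?_ (Real.log_le_log (by positivity) h5)
      rw [Real.log_pow]
      have := (Real.le_log_iff_exp_le (by positivity)).2 hw
      push_cast
      nlinarith
    have h4 : Real.exp (-p) * p ≤ 1 := by
      rw [Real.exp_neg, inv_mul_le_iff₀ (Real.exp_pos _)]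
      linarith [Real.add_one_le_exp p]
    have h5 : 3 * w * (s + 2 * q) ≤ 3 / 4 * (n * k) := by
      have e1 : 3 * w * (2 * a ^ 2 * p) ≤ 1 / 4 * (n * k) := by
        calc _ ≤ 3 * w * (2 * (q * k) ^ 2 * p) := by gcongr
          _ = 1 / 4 * (576 * (w : ℝ) ^ 2 * q ^ 3 * k * k) := by rw [hp]; ring
          _ ≤ _ := by gcongr
      have e2 : 3 * w * (2 * n * a * Real.exp (-p)) ≤ 1 / 4 * (n * k) := by
        calc _ ≤ 3 * w * (2 * n * (q * k) * Real.exp (-p)) := by gcongr
          _ = 1 / 4 * (n * k) * (Real.exp (-p) * p) := by rw [hp]; ring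
          _ ≤ 1 / 4 * (n * k) * 1 := by gcongr
          _ = _ := mul_one _
      have e3 : 3 * (w : ℝ) * (2 * q) ≤ 1 / 4 * (n * k) := by
        calc _ = 1 / 4 * (24 * (w : ℝ) ^ 1 * q ^ 1 * 1 * 1) := by ring
          _ ≤ 1 / 4 * (576 * (w : ℝ) ^ 2 * q ^ 3 * k * k) := by gcongr <;> norm_num
          _ ≤ _ := by gcongr
      rw [hs]
      linarith
    have h6 : (J : ℝ) * k ≤ 3 * w * n := by exact_mod_cast J2
    have h7 : 0 ≤ s + 2 * q := by positivity
    have h8 : (n : ℝ) ^ 2 * k ≤ J * (s + 2 * q) * k := by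
      gcongr
      linarith [h1 J le_rfl]
    have h9 := mul_le_mul_of_nonneg_right h6 h7
    have h10 := mul_le_mul_of_nonneg_left h5 (zero_le_one.trans n1)
    have : 0 < (n : ℝ) ^ 2 * k := by positivity
    nlinarith
  refine ⟨R + (j + 1) * k, by omega, ?_, ?_⟩
  · have := Nat.mul_le_mul_right k (show j + 1 ≤ J from hj)
    rw [add_mul ρ]
    omega
  have h1 := srg_card (R := (R + j * k : ℕ)) (a := a) (k := k) (n := n) (by omega) hka
    (by omega) p0.le
  have e : ((R + j * k : ℕ) : ℤ) + k = (R + (j + 1) * k : ℕ) := by push_cast; ring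
  rw [e, ← exp_lz _ (hom_bar _ _), ← Real.exp_add] at h1
  have h2 : av (rect (R + (j + 1) * k : ℕ) n) (fun f => ind (2 * (k : ℤ) - a ≤ f (a, 0)))
      (bar (R + (j + 1) * k : ℕ) n) ≤ Real.exp (-(2 * q)) := by
    rw [av_ind, div_le_iff₀ (card_pos _ (hom_bar _ _)), ← exp_lz _ (hom_bar _ _), ← Real.exp_add]
    refine le_trans ?_ (h1.trans (Real.exp_le_exp.2 (by simp only [Z] at hZ; linarith)))
    convert le_rfl
  have h3 : Real.exp (-(2 * q)) * (2 * q) ≤ 1 := by
    rw [Real.exp_neg, inv_mul_le_iff₀ (Real.exp_pos _)]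
    linarith [Real.add_one_le_exp (2 * q)]
  have h4 : mn (rect (R + (j + 1) * k : ℕ) n) (bar (R + (j + 1) * k : ℕ) n) (a, 0) ≤
      (2 * k - a) + 2 * a * av (rect (R + (j + 1) * k : ℕ) n)
        (fun f => ind (2 * (k : ℤ) - a ≤ f (a, 0))) (bar (R + (j + 1) * k : ℕ) n) := by
    rw [← av_smul, ← av_const _ (2 * (k : ℝ) - a) (hom_bar _ _), ← av_add]
    refine av_le fun f hf => ?_
    have h5 := (le_bar (by omega) hf (x := a) (by omega) 0).1
    have h6 : (f (a, 0) : ℝ) ≤ a := by exact_mod_cast (by simpa using h5)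
    unfold ind
    split_ifs with e
    · linarith
    · have : (f (a, 0) : ℝ) ≤ 2 * k - a := by exact_mod_cast (not_le.1 e).le
      linarith
  have h5 := mul_le_mul a1 h2 (av_nonneg (fun _ => by unfold ind; positivity) _) (by positivity)
  nlinarith

end Pool.Agent.MP_151d89_pr.H31
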