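import Pool.Agent.MP_151d89_pr.H31.Cnt
import Pool.Agent.MP_151d89_pr.H5.Slope
import Pool.Agent.MP_151d89_pr.H67.Rows

/-!
The end game: if at every large scale the mean is close to plus or minus the absolute value on one
of the two axes, then the measure is almost frozen.
-/

set_option autoImplicit false
open MeasureTheory Finset Filter

namespace Pool.Agent.MP_151d89_pr.H31
open Pool.Agent.MP_151d89_pr.H82 Pool.Agent.MP_151d89_pr.H33 Pool.Agent.MP_151d89_pr.H67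
  Pool.Agent.MP_151d89_pr.H30 Pool.Agent.MP_151d89_pr.H58 Pool.Agent.MP_151d89_pr.H95
open Pool.Agent.MP_151d89_pr.H5 (ell AF)
open Classical

/-- the maximum principle against a finite volume mean -/
theorem mpb {μ : Measure Conf} (hμ : Gibbs μ) (hT : Triv μ) {D : Finset (ℤ × ℤ)} {x z : ℤ × ℤ}
    {N : ℕ} {c : ℝ} {g : Conf} (hg : Hom g) (hN : 1 ≤ N) (hx : x ∈ D) (hD : D ⊆ box z N)
    (h : ∀ y, Bdy D y → ell μ y ≤ g y + c) : ell μ x ≤ mn D g x + c + 922 * (lg N * √N) := by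
  obtain ⟨f, hf, f1, f2⟩ := ex_good hμ hT hN hx hD
  have h1 := MPP.key hf hg hx (c := f x - ell μ x + c + 230 * (lg N * √N)) fun y hy => by
    linarith [(abs_le.1 (f1 y (MP2P.bdy_box hD hy))).2, h y hy]
  have h2 : (1 : ℝ) ≤ √N := Real.one_le_sqrt.2 (by exact_mod_cast hN)
  have h3 := one_le_mul_of_one_le_of_one_le (one_le_lg (n := N)) h2
  linarith [(abs_le.1 f2).2]

/-- mean height functions of tail trivial Gibbs measures -/
def Mean (M : ℤ × ℤ → ℝ) : Prop := ∃ μ : Measure Conf, Gibbs μ ∧ Triv μ ∧ ell μ = M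

namespace Mean
variable {M : ℤ × ℤ → ℝ}

theorem zero (h : Mean M) : M (0, 0) = 0 := by
  obtain ⟨μ, -, -, rfl⟩ := h
  simp [ell]

theorem lip (h : Mean M) (a b c d : ℤ) : M (a, b) ≤ M (c, d) + (|a - c| + |b - d| : ℤ) := by
  obtain ⟨μ, hμ, -, rfl⟩ := h
  have := H5.EllAux.part1 hμ (a, b) (c, d)
  simp only [H5.d1] at this
  linarith

theorem sym (h : Mean M) {φ : ℤ × ℤ ≃ ℤ × ℤ} (hφ : FinalAux.Iso φ) (h0 : φ (0, 0) = (0, 0)) {ε : ℤ}
    (hε : ε * ε = 1) : Mean fun y => ε * M (φ y) := by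
  have h1 := h.zero
  obtain ⟨μ, hμ, hT, rfl⟩ := h
  exact ⟨_, FinalAux.gibbs_T hμ hφ hε 0, H5.triv_T hT φ ε 0, funext fun y => by
    rw [ell_T hμ, h0, h1, mul_zero, sub_zero]⟩

/-- the reflection in a vertical line -/
def rx (c : ℤ) : ℤ × ℤ ≃ ℤ × ℤ := (Equiv.subLeft c).prodCongr (Equiv.refl ℤ)

theorem rx_apply (c : ℤ) (p : ℤ × ℤ) : rx c p = (c - p.1, p.2) := rfl

theorem iso_rx (c : ℤ) : FinalAux.Iso (rx c) := fun x y => by
  simp only [rx_apply, Int.abs_eq_natAbs]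
  omega

theorem refl (h : Mean M) : Mean fun y => M (-y.1, y.2) := by
  simpa [rx_apply] using h.sym (iso_rx 0) rfl (one_mul 1)

theorem neg (h : Mean M) : Mean fun y => -M y := by
  simpa using h.sym (φ := Equiv.refl _) (fun _ _ => rfl) rfl (ε := -1) (by norm_num)

theorem swap (h : Mean M) : Mean fun y => M (y.2, y.1) := by
  simpa [Prod.swap] using
    h.sym (φ := Equiv.prodComm _ _) (fun _ _ => add_comm _ _) rfl (one_mul 1)

/-- the ridge bound propagates to the right -/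
theorem ridge (h : Mean M) {n : ℤ} {δ : ℝ} (h1 : M (0, n) ≤ -n + δ) (h2 : M (0, -n) ≤ -n + δ)
    {x y : ℤ} (hy : |y| ≤ n) : M (x, y) ≤ (|x| - |y| : ℤ) + δ := by
  rcases le_total 0 y with e | e
  · have h3 := h.lip x y 0 n
    have h4 : |x - 0| + |y - n| = |x| - |y| + n := by
      simp only [Int.abs_eq_natAbs] at *
      omega
    rw [h4, Int.cast_add] at h3
    linarith
  · have h3 := h.lip x y 0 (-n)
    have h4 : |x - 0| + |y - -n| = |x| - |y| + n := by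
      simp only [Int.abs_eq_natAbs] at *
      omega
    rw [h4, Int.cast_add] at h3
    linarith

theorem rect_box {R n : ℤ} {N : ℕ} (h1 : R ≤ N) (h2 : n ≤ N) : rect R n ⊆ box 0 N := fun p hp => by
  rw [mem_rect] at hp
  simp only [mem_box, Prod.fst_zero, Prod.snd_zero]
  omega

/-- the reflection principle -/
theorem half (h : Mean M) {a n : ℤ} {N : ℕ} {δ : ℝ} (ha : 0 < a) (h1 : 2 * a ≤ N) (h2 : n ≤ N)
    (r1 : M (0, n) ≤ -n + δ) (r2 : M (0, -n) ≤ -n + δ) (r3 : M (2 * a, 0) ≤ 2 * a - 2 * n + δ)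
    {y : ℤ} (hy : |y| < n) : M (a, y) ≤ a - n + δ + 461 * (lg N * √N) := by
  have h3 := fun x y hy => h.ridge r1 r2 (x := x) (y := y) hy
  have h4 := fun y => h.lip (2 * a) y (2 * a) 0
  obtain ⟨μ, hμ, hT, rfl⟩ := h
  have := mpT hμ hT (φ := Equiv.refl _) (fun _ _ => rfl) (iso_rx (2 * a)) (one_mul 1) (ε' := -1)
    (by norm_num) (x := (a, y)) (c := 2 * a - 2 * n + 2 * δ) (show 1 ≤ N by omega)
    (by rw [mem_rect]; rw [abs_lt] at hy; omega) (rect_box h1 h2) ?_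
  · simp only [rx_apply, Equiv.refl_apply, show 2 * a - a = a by ring] at this
    push_cast at this
    linarith
  rintro ⟨u, v⟩ ⟨b1, w, b2, b3⟩
  simp only [mem_rect, dist1, Int.abs_eq_natAbs] at b1 b2 b3
  simp only [rx_apply, Equiv.refl_apply]
  have v1 : |v| ≤ n := by rw [abs_le]; omega
  have h5 := h3 u v v1
  have h6 := h3 (2 * a - u) v v1
  have h7 := h4 v
  rw [sub_self, abs_zero, zero_add, sub_zero] at h7
  obtain e | e | e : u = 0 ∨ u = 2 * a ∨ (|u| - |v| + (|2 * a - u| - |v|) = 2 * a - 2 * n) := by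
    simp only [Int.abs_eq_natAbs]
    omega
  · subst e
    rw [sub_zero]
    push_cast at *
    rw [abs_zero] at h5
    linarith
  · subst e
    rw [sub_self] at h6 ⊢
    push_cast at *
    rw [abs_zero] at h6
    linarith
  · have e' := congrArg (Int.cast (R := ℝ)) e
    rw [Int.cast_add] at e'
    push_cast [-Int.cast_abs, -Int.cast_sub] at *
    rw [Int.cast_sub (2 * a)] at e'
    push_cast [-Int.cast_abs, -Int.cast_sub] at e'
    linarith

/-- no peak -/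
theorem peak (h : Mean M) {a n : ℤ} {N : ℕ} {δ : ℝ} (ha : 0 < a) (hn : 0 < n) (h1 : 2 * a ≤ N)
    (h2 : n ≤ N) (r1 : M (0, n) ≤ -n + δ) (r2 : M (0, -n) ≤ -n + δ)
    (r3 : M (2 * a, 0) ≤ 2 * a - 2 * n + δ) (r4 : M (-(2 * a), 0) ≤ 2 * a - 2 * n + δ) :
    (n : ℝ) ≤ a + δ + 922 * (lg N * √N) := by
  have h3 := fun x y hy => h.ridge r1 r2 (x := x) (y := y) hy
  have h4 := fun y hy => h.half ha h1 h2 r1 r2 r3 (y := y) hy
  have h5 := fun y hy => h.refl.half ha h1 h2 r1 r2 r4 (y := y) hy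
  have h0 := h.zero
  have l0 : 0 ≤ lg N * √N := mul_nonneg (zero_le_one.trans one_le_lg) (Real.sqrt_nonneg _)
  obtain ⟨μ, hμ, hT, rfl⟩ := h
  have := mpT hμ hT (φ := Equiv.refl _) (φ' := Equiv.refl _) (fun _ _ => rfl) (fun _ _ => rfl)
    (one_mul 1) (ε' := -1) (by norm_num) (D := Ioo (-a) a ×ˢ Ioo (-n) n) (x := (0, 0)) (z := 0)
    (c := 2 * (a - n + δ + 461 * (lg N * √N))) (show 1 ≤ N by omega)
    (by simp only [mem_product, mem_Ioo]; omega) (fun p hp => by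
      simp only [mem_product, mem_Ioo, mem_box, Prod.fst_zero, Prod.snd_zero] at hp ⊢
      omega) ?_
  · simp only [Equiv.refl_apply, h0] at this
    linarith
  rintro ⟨u, v⟩ ⟨b1, w, b2, b3⟩
  simp only [mem_product, mem_Ioo, dist1, Int.abs_eq_natAbs] at b1 b2 b3
  simp only [Equiv.refl_apply]
  suffices ell μ (u, v) ≤ a - n + δ + 461 * (lg N * √N) by
    push_cast
    linarith
  obtain e | e | e : (u = a ∧ |v| < n) ∨ (u = -a ∧ |v| < n) ∨ (|v| ≤ n ∧ |u| - |v| ≤ a - n) := by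
    simp only [Int.abs_eq_natAbs]
    omega
  · exact e.1 ▸ h4 v e.2
  · exact e.1 ▸ h5 v e.2
  · have e' : ((|u| - |v| : ℤ) : ℝ) ≤ a - n := by exact_mod_cast e.2
    linarith [h3 u v e.1]

end Mean

theorem err_small {κ : ℝ} (hκ : 0 < κ) {L : ℕ} (hL : 1 ≤ L) :
    ∀ᶠ R : ℕ in atTop, 922 * (lg (L * R) * √(L * R : ℕ)) ≤ κ * R := by
  have h0 : (0 : ℝ) < L := by exact_mod_cast hL
  filter_upwards [(tendsto_id.const_mul_atTop' (show 0 < L from hL)).eventually
    (lg_small (κ := κ / (922 * L)) (by positivity))] with R h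
  simp only [id] at h
  have : κ / (922 * L) * (L * R : ℕ) * 922 = κ * R := by push_cast; field_simp
  linarith

/-- a ridge along the second axis -/
def Rg (d : ℝ) (R : ℕ) (M : ℤ × ℤ → ℝ) : Prop :=
  M (0, R) ≤ -R + d * R ∧ M (0, -R) ≤ -R + d * R

/-- next to a ridge, a ray that is not tight descends at a smaller scale, and this happens on one
side only -/
theorem trap {η : ℝ} (h0 : 0 < η) (h1 : η ≤ 1) : ∃ (m : ℕ) (d : ℝ), 1 ≤ m ∧ 0 < d ∧
    ∀ᶠ R : ℕ in atTop, ∃ j : ℕ, R ≤ m * j ∧ 8 * j < R ∧ ∀ M, Mean M → Rg d R M →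
      (M (R, 0) ≤ (1 - η) * R → M (8 * j, 0) ≤ -(2 * j)) ∧
        ¬ (M (8 * j, 0) ≤ -(2 * j) ∧ M (-(8 * j), 0) ≤ -(2 * j)) := by
  obtain ⟨ρ, hρ⟩ := exists_nat_ge (4 / η)
  rw [div_le_iff₀ h0] at hρ
  obtain ⟨m, L, hm, H⟩ := ts ρ 8 (by norm_num)
  have ρ1 : 1 ≤ ρ := Nat.pos_of_ne_zero (by rintro rfl; norm_num at hρ)
  have m0 : (0 : ℝ) < (2 * ρ * (16 * m) : ℕ) := by positivity
  refine ⟨2 * ρ * (16 * m), 1 / (4 * (2 * ρ * (16 * m) : ℕ)), Nat.cast_pos.1 m0, by positivity, ?_⟩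
  filter_upwards [err_small (κ := 1 / (4 * (2 * ρ * (16 * m) : ℕ))) (by positivity)
    (L := L + 1) (by omega), eventually_ge_atTop (ρ * (16 * m)), eventually_ge_atTop ρ]
    with R e1 e2 e3
  set n := ⌊η * R / 2⌋₊ with hn
  have R0 : (0 : ℝ) ≤ R := R.cast_nonneg
  have n1 : (n : ℝ) ≤ η * R / 2 := Nat.floor_le (by positivity)
  have n2 : η * R / 2 < n + 1 := Nat.lt_floor_add_one _
  have n3 : 2 * n ≤ R := by
    have : 2 * (n : ℝ) ≤ R := by nlinarith
    exact_mod_cast this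
  have n4 : R ≤ ρ * n := by
    have e4 : (ρ : ℝ) ≤ R := by exact_mod_cast e3
    have : (R : ℝ) ≤ ρ * n := by nlinarith [ρ.cast_nonneg (α := ℝ)]
    exact_mod_cast this
  have n5 : 16 * m ≤ n := Nat.le_of_mul_le_mul_left (e2.trans n4) ρ1
  set j := n / (16 * m) with hj
  have j1 : 1 ≤ j := Nat.div_pos n5 (by omega)
  have j2 : 16 * m * j ≤ n := Nat.mul_div_le _ _
  have j3 : n < 16 * m * (j + 1) := Nat.lt_mul_div_succ _ (by omega)
  have j4 : R ≤ 2 * ρ * (16 * m) * j := n4.trans (by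
    rw [mul_comm 2, mul_assoc, mul_assoc]
    exact Nat.mul_le_mul_left _ (by nlinarith))
  have j5 : 16 * j ≤ n := le_trans (Nat.mul_le_mul_right j (by omega)) j2
  have j6 : 1 / (4 * ((2 * ρ * (16 * m) : ℕ) : ℝ)) * R ≤ j / 4 := by
    have : (R : ℝ) ≤ (2 * ρ * (16 * m) : ℕ) * j := by exact_mod_cast j4
    rw [div_mul_eq_mul_div, div_le_iff₀ (by positivity)]
    linarith
  have j7 : (1 : ℝ) ≤ j := by exact_mod_cast j1
  have hN : R ≤ (L + 1) * R := Nat.le_mul_of_pos_left _ (by omega)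
  refine ⟨j, j4, by omega, fun M hM hR => ?_⟩
  have r := fun x y hy => hM.ridge hR.1 hR.2 (x := x) (y := y) hy
  refine ⟨fun hE => ?_, fun hE => ?_⟩
  · obtain ⟨R', a1, a2, a3⟩ := H n j (8 * j) R j1 (by omega) le_rfl
      (le_trans (Nat.mul_le_mul_right j (by omega)) j2) (by omega) n4
    have a4 : R' ≤ (L + 1) * R := a2.trans (Nat.mul_le_mul (by omega) (by omega))
    have a5 := fun u v => hM.lip u v R 0
    obtain ⟨μ, hμ, hT, rfl⟩ := hM
    have := mpb hμ hT (hom_bar R' n) (N := (L + 1) * R) (x := ((8 * j : ℕ), 0)) (by omega)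
      (by rw [mem_rect]; omega) (Mean.rect_box (R := R') (n := n) (by omega) (by omega))
      (c := 1 / (4 * ((2 * ρ * (16 * m) : ℕ) : ℝ)) * R) ?_
    · have c1 : ((8 * j : ℕ) : ℝ) = 8 * j := by push_cast; rfl
      have c2 : ((8 * j : ℕ) : ℤ) = 8 * j := by push_cast; rfl
      rw [c1] at a3
      rw [c2] at this a3
      linarith
    rintro ⟨u, v⟩ ⟨b1, w, b2, b3⟩
    simp only [mem_rect, dist1, Int.abs_eq_natAbs] at b1 b2 b3
    obtain e | e : (|v| ≤ R ∧ bar R' n (u, v) = |u| - |v|) ∨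
        bar R' n (u, v) = |u - R| + |v - 0| + R - 2 * n := by
      simp only [bar, Int.abs_eq_natAbs]
      omega
    · rw [e.2]
      exact r u v e.1
    · rw [e, Int.cast_sub, Int.cast_add _ (R : ℤ)]
      have : 0 ≤ 1 / (4 * ((2 * ρ * (16 * m) : ℕ) : ℝ)) * R := by positivity
      have := a5 u v
      push_cast [-Int.cast_abs, -Int.cast_add, -Nat.cast_mul]
      linarith
  · have r1 := r 0 (5 * j) (by rw [abs_le]; omega)
    have r2 := r 0 (-(5 * j)) (by rw [abs_le]; omega)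
    rw [abs_neg] at r2
    rw [abs_zero, zero_sub, abs_of_nonneg (by omega : (0 : ℤ) ≤ 5 * j), Int.cast_neg] at r1 r2
    have h2 : 0 ≤ 1 / (4 * ((2 * ρ * (16 * m) : ℕ) : ℝ)) * R := by positivity
    have := hM.peak (a := 4 * j) (n := 5 * j) (N := (L + 1) * R) (by omega) (by omega) (by omega)
      (by omega) r1 r2
      (by rw [show 2 * (4 * (j : ℤ)) = 8 * j by ring]; push_cast [-Nat.cast_mul]; linarith [hE.1])
      (by rw [show 2 * (4 * (j : ℤ)) = 8 * j by ring]; push_cast [-Nat.cast_mul]; linarith [hE.2])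
    push_cast [-Nat.cast_mul] at this
    linarith

/-- both horizontal rays ascend, or there is a ridge along the second axis -/
def Hz (d : ℝ) (R : ℕ) (M : ℤ × ℤ → ℝ) : Prop :=
  ((1 - d) * R ≤ M (R, 0) ∧ (1 - d) * R ≤ M (-R, 0)) ∨ Rg d R M

theorem Hz.mono {d d' : ℝ} (h : d ≤ d') {R : ℕ} {M : ℤ × ℤ → ℝ} (H : Hz d R M) : Hz d' R M := by
  have := mul_le_mul_of_nonneg_right h (R.cast_nonneg (α := ℝ))
  rcases H with H | H
  · exact Or.inl ⟨by linarith [H.1], by linarith [H.2]⟩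
  · exact Or.inr ⟨by linarith [H.1], by linarith [H.2]⟩

theorem horiz {M : ℤ × ℤ → ℝ} (hM : Mean M) (H : ∀ d : ℝ, 0 < d → ∀ᶠ R : ℕ in atTop, Hz d R M) :
    (∀ ε : ℝ, 0 < ε → ∀ᶠ R : ℕ in atTop, (1 - ε) * R ≤ M (R, 0)) ∨
      ∀ ε : ℝ, 0 < ε → ∀ᶠ R : ℕ in atTop, (1 - ε) * R ≤ M (-R, 0) := by
  rw [or_iff_not_imp_left]
  intro hc ε hε
  push Not at hc
  obtain ⟨η₀, h0, hc⟩ := hc
  have h1 : 0 < min η₀ 1 := lt_min h0 one_pos
  have key : ∀ {η d : ℝ} {R : ℕ}, 0 < η → 1 ≤ R → Hz (min d (η / 2)) R M →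
      M (R, 0) ≤ (1 - η) * R → Rg d R M := fun {η d R} e0 e1 e2 e3 => by
    have R1 : (1 : ℝ) ≤ R := by exact_mod_cast e1
    have e4 := mul_le_mul_of_nonneg_right (min_le_left d (η / 2)) (zero_le_one.trans R1)
    have e5 := mul_le_mul_of_nonneg_right (min_le_right d (η / 2)) (zero_le_one.trans R1)
    rcases e2 with e | e
    · nlinarith [e.1]
    · exact ⟨by linarith [e.1], by linarith [e.2]⟩
  obtain ⟨m, d, hm, hd, T⟩ := trap h1 (min_le_right _ _)
  have m1 : (1 : ℝ) ≤ m := by exact_mod_cast hm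
  obtain ⟨R₀, hR₀⟩ := eventually_atTop.1 (T.and ((H _ (lt_min hd (half_pos h1))).and
    (eventually_ge_atTop 1)))
  have down : ∀ R : ℕ, M (R, 0) ≤ (1 - min η₀ 1) * R → ∀ s : ℕ, R₀ ≤ s → s ≤ R →
      M (s, 0) ≤ (1 - 1 / m) * s := fun R => by
    induction R using Nat.strong_induction_on with
    | _ R ih =>
      intro hR s s1 s2
      obtain ⟨⟨j, j1, j2, j3⟩, a1, a2⟩ := hR₀ R (s1.trans s2)
      have a3 := (j3 M hM (key h1 a2 a1 hR)).1 hR
      have j0 : (0 : ℝ) ≤ j := j.cast_nonneg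
      rcases le_total s (8 * j) with e | e
      · refine ih (8 * j) j2 ?_ s s1 e
        push_cast
        nlinarith [min_le_right η₀ 1]
      · have a4 := hM.lip s 0 (8 * j) 0
        rw [sub_self, abs_zero, add_zero, abs_of_nonneg (by omega)] at a4
        have a5 : (s : ℝ) ≤ m * j := by exact_mod_cast s2.trans j1
        have a6 : 1 / (m : ℝ) * s ≤ j := by
          rw [div_mul_eq_mul_div, div_le_iff₀ (by positivity)]
          linarith
        push_cast at a4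
        linarith
  have h2 : 0 < min ε (1 / m) := lt_min hε (by positivity)
  obtain ⟨m', d', -, hd', T'⟩ := trap h2 ((min_le_right _ _).trans (by
    rw [div_le_one (by positivity)]; exact m1))
  filter_upwards [T', H _ (lt_min hd' (half_pos h2)), eventually_ge_atTop 1,
    eventually_ge_atTop R₀] with s ⟨j, _, _, j3⟩ a1 a2 a3
  obtain ⟨R, b1, b2⟩ := (hc.and_eventually (eventually_ge_atTop s)).exists
  have s0 : (0 : ℝ) ≤ s := s.cast_nonneg
  have a4 := down R (by nlinarith [min_le_left η₀ 1, R.cast_nonneg (α := ℝ)]) s a3 b2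
  have a5 : M (s, 0) ≤ (1 - min ε (1 / m)) * s := by nlinarith [min_le_right ε (1 / (m : ℝ))]
  have a6 := key h2 a2 a1 a5
  by_contra hw
  refine (j3 M hM a6).2 ⟨(j3 M hM a6).1 a5, (j3 _ hM.refl a6).1 ?_⟩
  show M (-s, 0) ≤ _
  nlinarith [min_le_left ε (1 / (m : ℝ))]

/-- no peak at the origin -/
theorem nopeak : ∀ᶠ R : ℕ in atTop, ∀ M, Mean M → Rg (1 / 8) R M →
    ¬ Rg (1 / 8) R fun y => M (y.2, y.1) := by
  filter_upwards [err_small (κ := 1 / 8) (by norm_num) (L := 1) le_rfl, eventually_ge_atTop 8]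
    with R e1 e2 M hM h1 h2
  rw [one_mul] at e1
  have r := fun x y hy => hM.ridge h1.1 h1.2 (x := x) (y := y) hy
  have r' := fun x y hy => hM.swap.ridge h2.1 h2.2 (x := x) (y := y) hy
  obtain ⟨a, a1, a2⟩ : ∃ a : ℤ, 2 * a ≤ R ∧ R ≤ 2 * a + 1 := ⟨R / 2, by omega, by omega⟩
  have r1 := r 0 (2 * a) (by rw [abs_le]; omega)
  have r2 := r 0 (-(2 * a)) (by rw [abs_le]; omega)
  have r3 := r' 0 (2 * a) (by rw [abs_le]; omega)
  have r4 := r' 0 (-(2 * a)) (by rw [abs_le]; omega)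
  rw [abs_neg] at r2 r4
  rw [abs_zero, zero_sub, abs_of_nonneg (by omega : (0 : ℤ) ≤ 2 * a), Int.cast_neg] at r1 r2 r3 r4
  have := hM.peak (a := a) (n := 2 * a) (N := R) (by omega) (by omega) a1 a1 r1 r2
    (by push_cast at r3 ⊢; linarith) (by push_cast at r4 ⊢; linarith)
  have a3 : (R : ℝ) ≤ 2 * a + 1 := by exact_mod_cast a2
  have a4 : (8 : ℝ) ≤ R := by exact_mod_cast e2
  push_cast at this
  linarith

theorem excl : ∀ᶠ R : ℕ in atTop, ∀ M, Mean M → Hz (1 / 8) R M →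
    ¬ Hz (1 / 8) R fun y => M (y.2, y.1) := by
  filter_upwards [nopeak, eventually_ge_atTop 1] with R H e M hM h1 h2
  have R1 : (1 : ℝ) ≤ R := by exact_mod_cast e
  rcases h1 with h1 | h1 <;> rcases h2 with h2 | h2
  · exact H _ hM.neg ⟨by linarith [h2.1], by linarith [h2.2]⟩
      ⟨by linarith [h1.1], by linarith [h1.2]⟩
  · linarith [h1.1, h2.1]
  · linarith [h1.1, h2.1]
  · exact H M hM h1 h2

theorem Hz.pred {M : ℤ × ℤ → ℝ} (hM : Mean M) {R : ℕ} (hR : 32 ≤ R) (H : Hz (1 / 16) (R + 1) M) :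
    Hz (1 / 8) R M := by
  have R1 : (32 : ℝ) ≤ R := by exact_mod_cast hR
  have a1 := hM.lip (R + 1) 0 R 0
  have a2 := hM.lip (-(R + 1)) 0 (-R) 0
  have a3 := hM.lip 0 R 0 (R + 1)
  have a4 := hM.lip 0 (-R) 0 (-(R + 1))
  simp only [Hz, Rg] at H ⊢
  norm_num at a1 a2 a3 a4
  push_cast at H
  rw [neg_add_rev] at H
  rcases H with H | H
  · exact Or.inl ⟨by linarith [H.1], by linarith [H.2]⟩
  · exact Or.inr ⟨by linarith [H.1], by linarith [H.2]⟩

/-- at every large scale the mean is close to plus or minus the absolute value on an axis -/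
def BB (M : ℤ × ℤ → ℝ) : Prop :=
  ∀ d : ℝ, 0 < d → ∀ᶠ R : ℕ in atTop, ∃ (b : Bool) (s : ℝ), (s = 1 ∨ s = -1) ∧
    (1 - d) * R ≤ s * M (pt b 0 R) ∧ (1 - d) * R ≤ s * M (pt b 0 (-R))

theorem stay {M : ℤ × ℤ → ℝ} (hM : Mean M) (H : ∀ d : ℝ, 0 < d → ∀ᶠ R : ℕ in atTop,
    Hz d R M ∨ Hz d R fun y => M (y.2, y.1)) (h : ∃ᶠ R : ℕ in atTop, Hz (1 / 8) R M) :
    ∀ d : ℝ, 0 < d → ∀ᶠ R : ℕ in atTop, Hz d R M := by
  obtain ⟨R₀, hR₀⟩ := eventually_atTop.1 (excl.and ((H (1 / 16) (by norm_num)).and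
    (eventually_ge_atTop 32)))
  obtain ⟨R₁, h1, h2⟩ := (h.and_eventually (eventually_ge_atTop R₀)).exists
  have h3 : ∀ R, R₁ ≤ R → Hz (1 / 8) R M := fun R hR => by
    induction R, hR using Nat.le_induction with
    | base => exact h1
    | succ R hR ih =>
      obtain ⟨a1, -, a2⟩ := hR₀ R (h2.trans hR)
      exact ((hR₀ (R + 1) (by omega)).2.1.resolve_right fun e =>
        a1 M hM ih (e.pred hM.swap a2)).mono (by norm_num)
  intro d hd
  filter_upwards [excl, H _ (lt_min hd (show (0 : ℝ) < 1 / 8 by norm_num)), eventually_ge_atTop R₁]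
    with R a1 a2 a3
  exact (a2.resolve_right fun e => a1 M hM (h3 R a3) (e.mono (min_le_right _ _))).mono
    (min_le_left _ _)

/-- the end game for the mean -/
theorem ray {M : ℤ × ℤ → ℝ} (hM : Mean M) (hB : BB M) : ∃ e : ℤ × ℤ, |e.1| + |e.2| = 1 ∧
    ∀ ε : ℝ, 0 < ε → ∀ᶠ n : ℕ in atTop, (1 - ε) * n ≤ M ((n : ℤ) • e) := by
  have H : ∀ d : ℝ, 0 < d → ∀ᶠ R : ℕ in atTop, Hz d R M ∨ Hz d R fun y => M (y.2, y.1) := by
    intro d hd
    filter_upwards [hB d hd] with R ⟨b, s, hs, h1, h2⟩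
    cases b <;>
      simp only [pt, dir, zero_add, Prod.smul_mk, smul_eq_mul, mul_one, mul_zero] at h1 h2 <;>
      rcases hs with rfl | rfl
    · exact Or.inr (Or.inl ⟨by linarith, by linarith⟩)
    · exact Or.inl (Or.inr ⟨by linarith, by linarith⟩)
    · exact Or.inl (Or.inl ⟨by linarith, by linarith⟩)
    · exact Or.inr (Or.inr ⟨by linarith, by linarith⟩)
  rcases frequently_or_distrib.1 (H (1 / 8) (by norm_num)).frequently with h | h
  · rcases horiz hM (stay hM H h) with e | e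
    · exact ⟨(1, 0), by simp, by simpa using e⟩
    · exact ⟨(-1, 0), by simp, by simpa using e⟩
  · rcases horiz hM.swap (stay hM.swap (fun d hd => (H d hd).mono fun _ => Or.symm) h) with e | e
    · exact ⟨(0, 1), by simp, by simpa using e⟩
    · exact ⟨(0, -1), by simp, by simpa using e⟩

/-- the end game -/
theorem endgame {μ : Measure Conf} (hμ : Gibbs μ) (hT : Triv μ) (hB : BB (ell μ)) :
    ∃ e, AF μ e := by
  obtain ⟨e, he, h⟩ := ray ⟨μ, hμ, hT, rfl⟩ hB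
  exact ⟨e, H5.slope_row μ hμ (H5.cheb_row μ hμ hT) e he h⟩

end Pool.Agent.MP_151d89_pr.H31
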