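import Pool.Agent.MP_151d89_pr.H67E.Spec
import Pool.Agent.MP_151d89_pr.H30W.Basic
import Pool.Agent.MP_151d89_pr.H9.Sym
import Pool.Agent.MP_151d89_pr.H31.Cnt

/-! The first moment of the towers inside the support of a cut-off. -/

set_option autoImplicit false
open MeasureTheory Finset Filter

namespace Pool.Agent.MP_151d89_pr.H31
open Pool.Agent.MP_151d89_pr.H82 Pool.Agent.MP_151d89_pr.H33 Pool.Agent.MP_151d89_pr.H67
  Pool.Agent.MP_151d89_pr.H30 Pool.Agent.MP_151d89_pr.H27 Pool.Agent.MP_151d89_pr.H45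
  Pool.Agent.MP_151d89_pr.H67E
open Pool.Agent.MP_151d89_pr.H30W (Leg al Hi Lo fl NoDesc IsPsi SumStmt PsiStmt ng ng_apply Val)
open Pool.Agent.MP_151d89_pr.H9 (Std)
open Classical

namespace FMA
variable {μ : Measure Conf}

/-- the law of the negative -/
noncomputable def neg (μ : Measure Conf) : Measure Conf := μ.map ng

theorem std_neg (hs : Std μ) : Std (neg μ) :=
  H9.SymA.std_T hs (Equiv.refl _) (fun _ _ => rfl) rfl (fun _ _ _ => rfl) (Or.inr rfl)

theorem leg_ng {f : Conf} (hf : Hom f) (b : Bool) (z : ℤ × ℤ) (t : ℕ) :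
    Leg b z t (ng f) ∧ Hi b z (ng f) ↔ Vly b (pt b z t) (t + 1) f := by
  have e1 : pt b (pt b z t) (-((t + 1 : ℕ) : ℤ)) = z - dir b := by
    simp only [pt]
    push_cast
    module
  have e2 : ∀ j : ℤ, pt b (z - dir b) j = pt b z (j - 1) := H45.pt_dir' b z
  have e3 : ∀ j : ℤ, pt b (pt b z t) (-j) = pt b z (t - j) := fun j => by
    simp only [pt]
    module
  constructor
  · rintro ⟨⟨h1, h2⟩, h3⟩
    simp only [ng_apply, Hi] at h1 h2 h3
    have a1 := h1 t (by omega)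
    have a2 := h1 (t + 1) le_rfl
    have a3 := h2 t le_rfl
    refine ⟨fun j hj => ?_, ?_, by omega, by omega⟩
    · rw [e1, e2]
      rcases j with _ | j
      · rw [Nat.cast_zero, zero_sub, H45.pt_neg_one, add_zero]
      · have := h1 j (by omega)
        rw [show ((j + 1 : ℕ) : ℤ) - 1 = j by omega]
        omega
    · rw [H45.pt_add]
      push_cast at a2
      omega
  · intro h
    have h1 := fun j hj => vly_run h.1 (t := j) hj
    have h2 := fun j hj => vly_side hf h (t := j) hj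
    have h3 := h.2.1
    simp only [e3] at h1 h2
    have a1 := h1 t (by omega)
    have a2 := h1 (t + 1) le_rfl
    rw [sub_self, pt_zero] at a1
    rw [show (t : ℤ) - (t + 1 : ℕ) = -1 by omega, H45.pt_neg_one] at a2
    rw [H45.pt_add] at h3
    simp only [Leg, Hi, ng_apply]
    refine ⟨⟨fun j hj => ?_, fun j hj => ?_⟩, by omega⟩
    · rcases hj.eq_or_lt with e | e
      · subst e
        push_cast
        omega
      · have := h1 (t - j) (by omega)
        rw [show (t : ℤ) - (t - j : ℕ) = j by omega] at this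
        omega
    · have := h2 (t - j) (by omega)
      rw [show (t : ℤ) - (t - j : ℕ) = j by omega] at this
      omega

theorem real_neg (hμ : Gibbs μ) (b : Bool) (z : ℤ × ℤ) (t : ℕ) :
    (neg μ).real {f | Leg b z t f ∧ Hi b z f} = μ.real {f | Vly b (pt b z t) (t + 1) f} :=
  (H21.real_T (H30W.mset ((H30W.mLeg b z t).and (H30W.mHi b z)))).trans
    (real_congr hμ fun _ hf => leg_ng hf b z t)

theorem fl_neg (hμ : Gibbs μ) (b : Bool) (z : ℤ × ℤ) :
    fl (neg μ) b z = ∑' t : ℕ, μ.real {f | Vly b (pt b z t) (t + 1) f} :=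
  tsum_congr (real_neg hμ b z)

theorem fl_mul (hμ : Gibbs μ) (b : Bool) (z : ℤ × ℤ) {a : ℝ} (ha : 0 ≤ a)
    (h : ∀ T, (∑ t ∈ range T, μ.real {f | Vly b (pt b z t) (t + 1) f}) * a ≤ 1) :
    a * fl (neg μ) b z ≤ 1 := by
  rw [fl_neg hμ]
  exact mul_tsum_le ha (fun _ => measureReal_nonneg) fun T => (mul_comm _ _).trans_le (h T)

theorem pt_shift (b : Bool) (z : ℤ × ℤ) (t : ℕ) :
    pt b (z - dir b) (t + 1 : ℕ) = pt b z t := by
  rw [H45.pt_dir']
  congr 1
  omega

theorem cc_hi (hμ : Gibbs μ) (b : Bool) (z : ℤ × ℤ) :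
    cc μ b (z - dir b) = μ.real {f | Hi b z f} := by
  simp only [cc, ← hi_iff, sub_add_cancel]

/-- the flux is small against the variation of the cut-off -/
theorem fl_ww (hs : Std μ) (b : Bool) (z : ℤ × ℤ) :
    (al μ (!b) (z - dir b) + 2 * cc μ b (z - dir b) + 2 * cc μ b (z - dir b - dir b)) *
      fl (neg μ) b z ≤ 5 := by
  have hμ := hs.gibbs
  have := hμ.1
  have h1 := fl_mul hμ b z (al_nonneg μ (!b) (z - dir b)) fun T => by
    simpa only [pt_shift] using dualm hμ hs.triv (H9.SymA.noDesc hs.nor) b (!b) (z - dir b) (range T)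
  have h2 := fl_mul hμ b z (cc_nonneg μ b (z - dir b)) fun T => by
    rw [cc_hi hμ]
    refine le_trans (mul_le_mul_of_nonneg_right (sum_le_sum fun t _ => ?_) measureReal_nonneg)
      (dualc' hμ hs.triv b z (range T))
    rw [q'_succ hμ b _ t]
    exact le_add_of_nonneg_left measureReal_nonneg
  have h3 := fl_mul hμ b z (cc_nonneg μ b (z - dir b - dir b)) fun T => by
    rw [cc_hi hμ]
    refine le_trans (mul_le_mul_of_nonneg_right ?_ measureReal_nonneg)
      (dualc' hμ hs.triv b (z - dir b) (range (T + 1)))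
    rw [sum_range_succ']
    simp only [pt_shift]
    exact le_add_of_nonneg_right measureReal_nonneg
  linarith

theorem FF_le (hS : SumStmt) (hs : Std μ) (N : ℕ) (b : Bool) (r : ℤ × ℤ) :
    FF μ N b r ≤ 1 + fl (neg μ) b r := by
  have hμ := hs.gibbs
  have := hμ.1
  have h1 := (hS _ (std_neg hs).gibbs (std_neg hs).triv (H9.SymA.noDesc (std_neg hs).nor) b r).2.1
  simp only [real_neg hμ] at h1
  rw [FF, sum_comm, fl_neg hμ]
  have h2 : ∀ j : ℕ, ∑ i ∈ range N, pp μ (b, pt b r (-i), i + j) ≤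
      μ.real {f | Av (-1) (b, r, j) f} + μ.real {f | Vly b (pt b r j) (j + 1) f} := fun j => by
    have e : pt b (pt b r j) (-j) = r := by simp [pt]
    have h3 := q'_succ hμ b (pt b r j) j
    rw [e, ← p_rev hμ] at h3
    rw [← h3]
    refine le_trans (le_of_eq (sum_congr rfl fun i _ => ?_)) (sum_le_hasSum (range N)
      (fun _ _ => measureReal_nonneg) (hasSum_vly hμ (H9.SymA.noRay hs.nor) b (pt b r j) j))
    have e' : pt b (pt b r j) (-((j + i : ℕ) : ℤ)) = pt b r (-i) := by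
      simp only [pt]
      push_cast
      module
    rw [e', add_comm j i]
    rfl
  refine (sum_le_sum fun j _ => h2 j).trans ?_
  rw [sum_add_distrib]
  exact add_le_add ((sum_start hμ b r _).trans measureReal_le_one)
    (h1.sum_le_tsum _ fun _ _ => measureReal_nonneg)

theorem nrm_dir (b : Bool) (z : ℤ × ℤ) :
    nrm (z + dir b) ≤ nrm z + 1 ∧ nrm z ≤ nrm (z + dir b) + 1 := by
  cases b <;> simp only [nrm, dir, Prod.fst_add, Prod.snd_add, Int.abs_eq_natAbs] <;> omega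

theorem shift {n : ℕ} (u : ℤ × ℤ → ℝ) {G : ℤ × ℤ → ℝ} (hG : ∀ z, G z ≠ 0 → nrm z < n) (b : Bool) :
    ∑ z ∈ box 0 n, u z * G (z - dir b) = ∑ z ∈ box 0 n, u (z + dir b) * G z := by
  refine sum_bij_ne_zero (fun z _ _ => z - dir b)
    (fun z _ h => mem_box0.2 (hG _ (right_ne_zero_of_mul h)).le)
    (fun _ _ _ _ _ _ h => sub_left_injective h) (fun y _ h => ⟨y + dir b, mem_box0.2 ?_,
      by rwa [add_sub_cancel_right], add_sub_cancel_right _ _⟩) fun z _ _ => by rw [sub_add_cancel]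
  have := hG _ (right_ne_zero_of_mul h)
  have := (nrm_dir b y).1
  omega

theorem parts {n : ℕ} (Θ : ℤ × ℤ → ℝ) {G : ℤ × ℤ → ℝ} (hG : ∀ z, G z ≠ 0 → nrm z < n) :
    ∑ z ∈ box 0 n, (Θ z - Θ (z + dir false)) * (G z - G (z - dir true)) +
      ∑ z ∈ box 0 n, (Θ (z + dir true) - Θ z) * (G z - G (z - dir false)) = 0 := by
  simp only [mul_sub, sum_sub_distrib]
  rw [shift (fun z => Θ z - Θ (z + dir false)) hG, shift (fun z => Θ (z + dir true) - Θ z) hG,
    ← sum_sub_distrib, ← sum_sub_distrib, ← sum_add_distrib]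
  refine sum_eq_zero fun z _ => ?_
  rw [add_right_comm z (dir false)]
  ring

theorem one_dir (hS : SumStmt) (hs : Std μ) {ψ : ℤ × ℤ → ℝ} {U : Finset (ℤ × ℤ)} {lam TV : ℝ}
    (hD : Dat μ ψ U lam TV (al μ)) (h1 : ∀ z, ψ z ≤ 1) {n : ℕ} (hn : 1 ≤ n) (b : Bool)
    {A : ℤ × ℤ → ℝ} (hA : ∀ z, |A z - fl (neg μ) b z| ≤ 1) :
    ∑ z ∈ box 0 n, ψ z * fl (neg μ) b z - (9 * n ^ 2 * (1 + 35 * n * lam) + 7 * n * TV) ≤
      ∑ z ∈ box 0 n, A z * ((4 * n + z.1 + z.2) * ψ z -
        (4 * n + (z - dir b).1 + (z - dir b).2) * ψ (z - dir b)) := by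
  have n1 : (1 : ℝ) ≤ n := by exact_mod_cast hn
  have h2 : ∑ z ∈ box 0 n, ww ψ b (z - dir b) ≤ TV := by
    have := hD.tv b ((box 0 n).map (Equiv.subRight (dir b)).toEmbedding)
    rwa [sum_map] at this
  have h3 : ∑ _z ∈ box 0 n, (1 + 35 * n * lam) ≤ 9 * n ^ 2 * (1 + 35 * n * lam) := by
    rw [sum_const, card_box, nsmul_eq_mul]
    have := hD.lam0
    push_cast
    gcongr
    nlinarith
  have h4 := mul_le_mul_of_nonneg_left h2 (show (0 : ℝ) ≤ 7 * n by positivity)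
  rw [mul_sum] at h4
  refine le_trans (sub_le_sub_left (add_le_add h3 h4) _) ?_
  rw [← sum_add_distrib, ← sum_sub_distrib]
  refine sum_le_sum fun z hz => ?_
  have f0 := (hS _ (std_neg hs).gibbs (std_neg hs).triv
    (H9.SymA.noDesc (std_neg hs).nor) b z).2.2.1
  have a1 := mul_le_mul_of_nonneg_right (hD.hw b (z - dir b)) f0
  have a2 := mul_le_mul_of_nonneg_left (fl_ww hs b z) hD.lam0
  have a3 : ((z - dir b).1 : ℝ) + (z - dir b).2 = z.1 + z.2 - 1 := by
    cases b <;> simp [dir] <;> ring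
  have a4 : |(4 * n + z.1 + z.2 - 1 : ℝ)| ≤ 7 * n := by
    rw [mem_box0] at hz
    have : |(4 * n + z.1 + z.2 - 1 : ℤ)| ≤ 7 * n := by
      simp only [nrm, Int.abs_eq_natAbs] at hz ⊢
      omega
    exact_mod_cast this
  have a5 : ww ψ b (z - dir b) = |ψ z - ψ (z - dir b)| := by rw [ww, sub_add_cancel]
  have a6 : |A z| ≤ fl (neg μ) b z + 1 := by
    have := abs_le.1 (hA z)
    rw [abs_le]
    constructor <;> linarith
  have a7 : |A z * ((4 * n + z.1 + z.2 - 1) * (ψ z - ψ (z - dir b)))| ≤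
      (fl (neg μ) b z + 1) * (7 * n * ww ψ b (z - dir b)) := by
    rw [abs_mul, abs_mul, a5]
    gcongr
  have a8 := mul_le_mul_of_nonneg_left ((a1.trans_eq (mul_assoc _ _ _)).trans a2)
    (show (0 : ℝ) ≤ 7 * n by positivity)
  have a9 : -1 ≤ (A z - fl (neg μ) b z) * ψ z := by
    nlinarith [abs_le.1 (hA z), hD.h0 z, h1 z]
  rw [add_assoc (4 * n : ℝ) ((z - dir b).1 : ℝ), a3]
  nlinarith [(abs_le.1 a7).1]

end FMA
open FMA

/-- the first moment bound -/
theorem fm (hS : SumStmt) (hP : PsiStmt) {μ : Measure Conf} (hs : Std μ) {ψ : ℤ × ℤ → ℝ}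
    {U : Finset (ℤ × ℤ)} {lam TV : ℝ} (hD : Dat μ ψ U lam TV (al μ)) (h1 : ∀ z, ψ z ≤ 1) {n : ℕ}
    (hn : 1 ≤ n) (h2 : ∀ z, ψ z ≠ 0 → nrm z < n) {V : Finset (ℤ × ℤ)} (hV : ∀ z ∈ V, ψ z = 1)
    (N : ℕ) (b : Bool) :
    ∑ r ∈ V, FF μ N b r ≤ 9 * n ^ 2 + 2 * (9 * n ^ 2 * (1 + 35 * n * lam) + 7 * n * TV) := by
  have hν := std_neg hs
  have := hν.gibbs.1
  have n1 : (1 : ℝ) ≤ n := by exact_mod_cast hn
  obtain ⟨Θ, -, hΘ⟩ := hP _ hν.gibbs hν.triv (H9.SymA.noDesc hν.nor)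
  have loc : ∀ p q : Set Conf, |(neg μ).real p - (neg μ).real q / 2| ≤ 1 := fun p q => by
    have a1 : 0 ≤ (neg μ).real p := measureReal_nonneg
    have a2 : 0 ≤ (neg μ).real q := measureReal_nonneg
    have a3 : (neg μ).real p ≤ 1 := measureReal_le_one
    have a4 : (neg μ).real q ≤ 1 := measureReal_le_one
    rw [abs_le]
    constructor <;> linarith
  have a1 := one_dir hS hs hD h1 hn true (A := fun z => Θ z - Θ (z + dir false)) fun z => by
    rw [(hΘ z).2, add_sub_assoc, add_sub_cancel_left]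
    exact loc _ _
  have a2 := one_dir hS hs hD h1 hn false (A := fun z => Θ (z + dir true) - Θ z) fun z => by
    rw [(hΘ z).1, add_sub_assoc, add_sub_cancel_left]
    exact loc _ _
  have a3 := parts (n := n) Θ (G := fun z => (4 * n + z.1 + z.2) * ψ z) fun z h =>
    h2 z (right_ne_zero_of_mul h)
  have f0 := fun b z => (hS _ hν.gibbs hν.triv (H9.SymA.noDesc hν.nor) b z).2.2.1
  have a4 : ∀ c, 0 ≤ ∑ z ∈ box 0 n, ψ z * fl (neg μ) c z := fun c =>
    sum_nonneg fun z _ => mul_nonneg (hD.h0 z) (f0 c z)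
  have a5 : V ⊆ box 0 n := fun z hz => mem_box0.2 (h2 z (by rw [hV z hz]; norm_num)).le
  have a6 : ∑ r ∈ V, FF μ N b r ≤ ∑ z ∈ box 0 n, (1 + ψ z * fl (neg μ) b z) :=
    (sum_le_sum fun r hr => by rw [hV r hr, one_mul]; exact FF_le hS hs N b r).trans
      (sum_le_sum_of_subset_of_nonneg a5 fun z _ _ => by
        linarith [mul_nonneg (hD.h0 z) (f0 b z)])
  rw [sum_add_distrib, sum_const, card_box, nsmul_eq_mul] at a6
  push_cast at a6
  have a7 : (2 * (n : ℝ) + 1) ^ 2 ≤ 9 * n ^ 2 := by nlinarith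
  have a8 := a4 true
  have a9 := a4 false
  cases b <;> linarith

end Pool.Agent.MP_151d89_pr.H31
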