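import Pool.Agent.MP_151d89_pr.H31.End
import Pool.Agent.MP_151d89_pr.H55.Lim

/-! The end game in terms of the limit profiles. -/

set_option autoImplicit false
open MeasureTheory Filter Topology

namespace Pool.Agent.MP_151d89_pr.H31
open Pool.Agent.MP_151d89_pr.H82 Pool.Agent.MP_151d89_pr.H33 Pool.Agent.MP_151d89_pr.H67
  Pool.Agent.MP_151d89_pr.H30
open Pool.Agent.MP_151d89_pr.H5 (ell AF)

/-- the profile has the same extreme value at two opposite unit vectors -/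
def Bh (h : ℝ × ℝ → ℝ) : Prop :=
  ∃ s : ℝ, (s = 1 ∨ s = -1) ∧ ((h (1, 0) = s ∧ h (-1, 0) = s) ∨ (h (0, 1) = s ∧ h (0, -1) = s))

theorem bb_of_lim {l : ℤ × ℤ → ℝ} (hl : H55.LipZ l) (H : ∀ 𝒰 h, H55.Lim l 𝒰 h → Bh h) : BB l := by
  intro d hd
  by_contra hc
  rw [not_eventually] at hc
  obtain ⟨𝒱, hV⟩ := Ultrafilter.exists_le (atTop ⊓ 𝓟 _) (h := frequently_iff_neBot.1 hc)
  have h1 : (𝒱 : Filter ℕ) ≤ atTop := hV.trans inf_le_left
  have h2 := le_principal_iff.1 (hV.trans inf_le_right)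
  obtain ⟨h, hh⟩ := H55.lim_row.2.1 l (𝒱.map Nat.cast) hl
    (tendsto_natCast_atTop_atTop.mono_left h1)
  obtain ⟨s, hs, H⟩ := H _ h hh
  have key : ∀ (u v : ℤ), h (u, v) = s →
      ∀ᶠ R : ℕ in 𝒱, (1 - d) * R ≤ s * l (R * u, R * v) := fun u v e => by
    have h3 : Tendsto (fun R : ℕ => s * H55.M l R (u, v)) 𝒱 (𝓝 (s * s)) :=
      (e ▸ hh.2 (u, v) :).const_mul s
    have h4 : 1 - d < s * s := by rcases hs with rfl | rfl <;> linarith
    filter_upwards [h3.eventually (lt_mem_nhds h4), h1 (eventually_gt_atTop 0)] with R a1 a2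
    have R0 : (0 : ℝ) < R := by exact_mod_cast a2
    have e1 : ∀ w : ℤ, ⌊(R : ℝ) * w⌋ = R * w := fun w => by
      rw [← Int.floor_intCast (R := ℝ) (R * w)]
      push_cast
      rfl
    simp only [H55.M, e1] at a1
    rw [← mul_div_assoc, lt_div_iff₀ R0] at a1
    exact a1.le
  rcases H with ⟨e1, e2⟩ | ⟨e1, e2⟩
  · obtain ⟨R, a1, a2, a3⟩ := (Eventually.and h2 ((key 1 0 (by simpa using e1)).and
      (key (-1) 0 (by simpa using e2)))).exists
    exact a1 ⟨true, s, hs, by simpa [pt, dir] using a2, by simpa [pt, dir] using a3⟩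
  · obtain ⟨R, a1, a2, a3⟩ := (Eventually.and h2 ((key 0 1 (by simpa using e1)).and
      (key 0 (-1) (by simpa using e2)))).exists
    exact a1 ⟨false, s, hs, by simpa [pt, dir] using a2, by simpa [pt, dir] using a3⟩

theorem lipZ_ell {μ : Measure Conf} (hμ : Gibbs μ) : H55.LipZ (ell μ) :=
  ⟨by simp [ell], fun z w => by simpa [H5.d1] using H5.EllAux.part1 hμ z w⟩

/-- the end game from the limit profiles -/
theorem endgame_lim {μ : Measure Conf} (hμ : Gibbs μ) (hT : Triv μ)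
    (H : ∀ 𝒰 h, H55.Lim (ell μ) 𝒰 h → Bh h) : ∃ e, AF μ e :=
  endgame hμ hT (bb_of_lim (lipZ_ell hμ) H)

end Pool.Agent.MP_151d89_pr.H31
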