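import Pool.Agent.MP_151d89_pr.H31.FM
import Pool.Agent.MP_151d89_pr.H27.En2
import Pool.Agent.MP_151d89_pr.H70.PB

/-! The cut-off and the exit point of the Mermin-Wagner argument. -/

set_option autoImplicit false
open MeasureTheory Finset Filter

namespace Pool.Agent.MP_151d89_pr.H31
open Pool.Agent.MP_151d89_pr.H82 Pool.Agent.MP_151d89_pr.H33 Pool.Agent.MP_151d89_pr.H67
  Pool.Agent.MP_151d89_pr.H30 Pool.Agent.MP_151d89_pr.H27 Pool.Agent.MP_151d89_pr.H45
  Pool.Agent.MP_151d89_pr.H67E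
open Pool.Agent.MP_151d89_pr.H30W (Leg al Hi Lo fl NoDesc IsPsi SumStmt PsiStmt Val)
open Pool.Agent.MP_151d89_pr.H9 (Std)
open Pool.Agent.MP_151d89_pr.H5 (ell)
open Classical

namespace MWA

/-- clamping -/
def cl (b t : ℝ) : ℝ := max (-b) (min b t)

/-- the profile of the cut-off -/
noncomputable def chi (a t : ℝ) : ℝ := min 1 (2 - |cl (2 * a) t| / a)

theorem cl_abs {b : ℝ} (hb : 0 ≤ b) (t : ℝ) : |cl b t| = min |t| b := by
  unfold cl
  rcases le_total t (-b) with h | h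
  · rw [min_eq_right (by linarith), max_eq_left h, abs_neg, abs_of_nonneg hb,
      min_eq_right (le_abs.2 (Or.inr (by linarith)))]
  rcases le_total t b with h' | h'
  · rw [min_eq_right h', max_eq_right h, min_eq_left (abs_le.2 ⟨h, h'⟩)]
  · rw [min_eq_left h', max_eq_right (by linarith), abs_of_nonneg hb,
      min_eq_right (le_abs.2 (Or.inl h'))]

theorem cl_lip (b s t : ℝ) : |cl b s - cl b t| ≤ |s - t| :=
  (abs_max_sub_max_le_max _ _ _ _).trans (max_le (by simp) ((abs_min_sub_min_le_max _ _ _ _).trans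
    (max_le (by simp) le_rfl)))

theorem cl_mono (b : ℝ) {s t : ℝ} (h : s ≤ t) : cl b s ≤ cl b t :=
  max_le_max le_rfl (min_le_min le_rfl h)

theorem cl_step (b : ℝ) {s t : ℝ} (h : -1 ≤ s - t) : |cl b s - cl b t| ≤ cl b s - cl b t + 2 := by
  rcases le_total t s with e | e
  · rw [abs_of_nonneg (sub_nonneg.2 (cl_mono b e))]
    linarith
  · have := cl_lip b s t
    rw [abs_of_nonpos (sub_nonpos.2 e)] at this
    linarith [(abs_le.1 this).1]

theorem chi_lip {a : ℝ} (ha : 0 < a) (s t : ℝ) :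
    |chi a s - chi a t| ≤ 1 / a * |cl (2 * a) s - cl (2 * a) t| := by
  refine (abs_min_sub_min_le_max _ _ _ _).trans (max_le (by simp; positivity) ?_)
  rw [sub_sub_sub_cancel_left, ← sub_div, abs_div, abs_of_pos ha, one_div_mul_eq_div, abs_sub_comm]
  exact div_le_div_of_nonneg_right (abs_abs_sub_abs_le_abs_sub _ _) ha.le

theorem chi_nonneg {a : ℝ} (ha : 0 < a) (t : ℝ) : 0 ≤ chi a t := by
  refine le_min zero_le_one (sub_nonneg.2 ?_)
  rw [div_le_iff₀ ha, cl_abs (by positivity)]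
  exact min_le_right _ _

theorem chi_one {a t : ℝ} (ha : 0 < a) (h : |t| ≤ a) : chi a t = 1 := by
  refine min_eq_left ?_
  have : |cl (2 * a) t| / a ≤ 1 := by
    rw [div_le_one ha, cl_abs (by positivity)]
    exact (min_le_left _ _).trans h
  linarith

theorem chi_zero {a t : ℝ} (ha : 0 < a) (h : 2 * a ≤ |t|) : chi a t = 0 := by
  rw [chi, cl_abs (by positivity), min_eq_right h, mul_div_cancel_right₀ _ ha.ne', sub_self,
    min_eq_right zero_le_one]

theorem tele' (φ : ℤ → ℝ) (n : ℕ) :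
    ∑ x ∈ Icc (-(n : ℤ)) n, (φ (x + 1) - φ x) = φ (n + 1) - φ (-n) := by
  have := tele (fun y => φ (y + 1)) (-n - 1) (2 * n + 1)
  simp only [sub_add_cancel] at this
  rw [show -(n : ℤ) - 1 + (2 * n + 1 : ℕ) = n by omega] at this
  rw [← this]
  refine sum_congr ?_ fun _ _ => rfl
  ext y
  simp only [mem_Icc, mem_Ioc]
  omega

theorem tel_box {h : ℤ × ℤ → ℝ} {K : ℝ} (hK : ∀ z, |h z| ≤ K) (n : ℕ) (b : Bool) :
    |∑ z ∈ box 0 n, (h (z + dir b) - h z)| ≤ (2 * n + 1) * (2 * K) := by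
  have h1 : ∀ g : ℤ → ℝ, (∀ x, |g x| ≤ 2 * K) →
      |∑ x ∈ Icc (-(n : ℤ)) n, g x| ≤ (2 * n + 1) * (2 * K) := fun g hg => by
    refine (abs_sum_le_sum_abs _ _).trans ((sum_le_card_nsmul _ _ _ fun x _ => hg x).trans_eq ?_)
    rw [Int.card_Icc, nsmul_eq_mul, show ((n : ℤ) + 1 - -n).toNat = 2 * n + 1 by omega]
    push_cast
    rfl
  have h2 : ∀ u v, |h u - h v| ≤ 2 * K := fun u v =>
    (abs_sub _ _).trans (by linarith [hK u, hK v])
  simp only [H82.box, Prod.fst_zero, Prod.snd_zero, zero_sub, zero_add]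
  cases b
  · rw [sum_product]
    refine h1 _ fun x => ?_
    simp only [dir, Prod.mk_add_mk, add_zero]
    rw [tele' fun y => h (x, y)]
    exact h2 _ _
  · rw [sum_product_right]
    refine h1 _ fun y => ?_
    simp only [dir, Prod.mk_add_mk, add_zero]
    rw [tele' fun x => h (x, y)]
    exact h2 _ _

theorem tv_cl {g : ℤ × ℤ → ℝ} {c : ℝ} (hc : 0 ≤ c) (n : ℕ) (b : Bool)
    (h : (∀ z, -1 ≤ g (z + dir b) - g z) ∨ ∀ z, -1 ≤ g z - g (z + dir b)) :
    ∑ z ∈ box 0 n, |cl c (g (z + dir b)) - cl c (g z)| ≤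
      (2 * n + 1) * (2 * c) + (2 * n + 1) ^ 2 * 2 := by
  have h1 := abs_le.1 (tel_box (h := fun z => cl c (g z)) (K := c)
    (fun z => (cl_abs hc _).trans_le (min_le_right _ _)) n b)
  have h2 : ∑ _z ∈ box (0 : ℤ × ℤ) n, (2 : ℝ) = (2 * n + 1) ^ 2 * 2 := by
    rw [sum_const, card_box, nsmul_eq_mul]
    push_cast
    rfl
  rcases h with h | h
  · refine (sum_le_sum fun z _ => cl_step c (h z)).trans ?_
    rw [sum_add_distrib, h2]
    linarith [h1.2]
  · refine (sum_le_sum fun z _ => (abs_sub_comm _ _).trans_le (cl_step c (h z))).trans ?_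
    rw [sum_add_distrib, h2]
    have := h1.1
    simp only [sum_sub_distrib] at this ⊢
    linarith

/-- the cut-off -/
noncomputable def cut (u v : ℤ × ℤ → ℝ) (n : ℕ) (a : ℝ) (z : ℤ × ℤ) : ℝ :=
  if nrm z < n then min (chi a (u z)) (chi a (v z)) else 0

variable {u v : ℤ × ℤ → ℝ} {n : ℕ} {a : ℝ}

theorem cut_mem (ha : 0 < a) (z : ℤ × ℤ) : 0 ≤ cut u v n a z ∧ cut u v n a z ≤ 1 := by
  unfold cut
  split_ifs
  · exact ⟨le_min (chi_nonneg ha _) (chi_nonneg ha _), (min_le_left _ _).trans (min_le_left _ _)⟩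
  · simp

theorem cut_ne (ha : 0 < a) {z : ℤ × ℤ} (h : cut u v n a z ≠ 0) :
    nrm z < n ∧ |u z| ≤ 2 * a ∧ |v z| ≤ 2 * a := by
  unfold cut at h
  split_ifs at h with e
  · refine ⟨e, not_lt.1 fun h' => h ?_, not_lt.1 fun h' => h ?_⟩
    · rw [chi_zero ha h'.le, min_eq_left (chi_nonneg ha _)]
    · rw [chi_zero ha h'.le, min_eq_right (chi_nonneg ha _)]
  · exact absurd rfl h

theorem cut_one (ha : 0 < a) {z : ℤ × ℤ} (h : nrm z < n ∧ |u z| ≤ a ∧ |v z| ≤ a) :
    cut u v n a z = 1 := by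
  rw [cut, if_pos h.1, chi_one ha h.2.1, chi_one ha h.2.2, min_self]

theorem cut_ww (ha : 0 < a) (hb : ∀ z, nrm z = n → 2 * a ≤ |u z| ∨ 2 * a ≤ |v z|) (b : Bool)
    (z : ℤ × ℤ) : ww (cut u v n a) b z ≤
      1 / a * max |cl (2 * a) (u (z + dir b)) - cl (2 * a) (u z)|
        |cl (2 * a) (v (z + dir b)) - cl (2 * a) (v z)| := by
  have h1 : ∀ y, nrm y ≤ n → cut u v n a y = min (chi a (u y)) (chi a (v y)) := fun y hy => by
    unfold cut
    split_ifs with e
    · rfl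
    · rcases hb y (by omega) with e' | e'
      · rw [chi_zero ha e', min_eq_left (chi_nonneg ha _)]
      · rw [chi_zero ha e', min_eq_right (chi_nonneg ha _)]
  have h2 := FMA.nrm_dir b z
  by_cases e : nrm z ≤ n ∧ nrm (z + dir b) ≤ n
  · rw [ww, h1 _ e.1, h1 _ e.2, mul_max_of_nonneg _ _ (by positivity)]
    exact (abs_min_sub_min_le_max _ _ _ _).trans (max_le_max (chi_lip ha _ _) (chi_lip ha _ _))
  · rw [ww, cut, cut, if_neg (by omega), if_neg (by omega), sub_self, abs_zero]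
    exact mul_nonneg (by positivity) (le_max_of_le_left (abs_nonneg _))

theorem dat (hS : SumStmt) {μ : Measure Conf} (hs : Std μ) {Ψ : ℤ × ℤ → ℝ} (hΨ : IsPsi μ Ψ)
    (ha : 0 < a) (hb : ∀ z, nrm z = n → 2 * a ≤ |H9.nb (ell μ) z| ∨ 2 * a ≤ |Ψ z|)
    {U : Finset (ℤ × ℤ)} (hU : ∀ z, cut (H9.nb (ell μ)) Ψ n a z ≠ 0 → z ∈ U) {lam TV : ℝ}
    (hl : 1 / a ≤ lam) (hT : 1 / a * (2 * ((2 * n + 1) * (4 * a) + (2 * n + 1) ^ 2 * 2)) ≤ TV) :
    Dat μ (cut (H9.nb (ell μ)) Ψ n a) U lam TV (al μ) := by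
  have hμ := hs.gibbs
  have := hμ.1
  have hN := H9.SymA.noDesc hs.nor
  have S := hS μ hμ hs.triv hN
  have a0 : 0 ≤ 1 / a := by positivity
  have d1 : ∀ b z, H9.nb (ell μ) (z + dir b) - H9.nb (ell μ) z = cc μ b z := fun b z =>
    (H70.PBP.lo_nb hμ b z).symm
  have v0 : ∀ z, 0 ≤ μ.real {f | Val z f} := fun _ => measureReal_nonneg
  have v1 : ∀ z, μ.real {f | Val (z + dir true) f} ≤ cc μ true z := fun z =>
    measureReal_mono fun f hf => (hi_iff true z f).1 hf.1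
  have v2 : ∀ z, μ.real {f | Val z f} ≤ cc μ false (z - dir false) := fun z =>
    (measureReal_mono fun f hf => hf.2).trans_eq (FMA.cc_hi hμ false z).symm
  have p1 : ∀ z, Ψ (z + dir true) - Ψ z =
      fl μ false z + μ.real {f | Val (z + dir true) f} - cc μ true z / 2 := fun z => (hΨ.2 z).1
  have p2 : ∀ z, Ψ z - Ψ (z + dir false) =
      fl μ true z + μ.real {f | Val z f} - cc μ false z / 2 := fun z => (hΨ.2 z).2
  refine ⟨hμ, hs.triv, fun z => (cut_mem ha z).1, hU, a0.trans hl, al_nonneg μ, fun _ _ => le_rfl,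
    fun c z => (al'_eq hμ hN c z).ge, fun c z => ?_, fun c z => ?_, fun b z => ?_, fun b T => ?_⟩
  · have : 0 ≤ μ.real {f | Leg c z 0 f} := measureReal_nonneg
    linarith [(S c (z + dir c)).2.2.2.2.1, (S c z).2.2.2.2.2.1]
  · have : μ.real {f | Leg c z 0 f} ≤ 1 := measureReal_le_one
    linarith [(S c (z + dir c)).2.2.2.1, (S c z).2.2.2.2.2.1]
  · have c1 := cc_nonneg μ b z
    have c2 := cc_nonneg μ b (z - dir b)
    have c3 := al_nonneg μ (!b) z
    have c4 := (S (!b) z).2.2.1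
    have c5 := (S (!b) z).2.2.2.1
    refine (cut_ww ha hb b z).trans (mul_le_mul hl (max_le ((cl_lip _ _ _).trans ?_)
      ((cl_lip _ _ _).trans ?_)) (le_max_of_le_left (abs_nonneg _)) (a0.trans hl))
    · rw [d1, abs_of_nonneg c1]
      linarith
    · rw [abs_le]
      cases b
      · simp only [Bool.not_false] at *
        constructor <;> linarith [p2 z, v0 z, v2 z]
      · simp only [Bool.not_true] at *
        constructor <;> linarith [p1 z, v0 (z + dir true), v1 z]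
  · have h1 : ∑ z ∈ T, ww (cut (H9.nb (ell μ)) Ψ n a) b z ≤
        ∑ z ∈ box 0 n, ww (cut (H9.nb (ell μ)) Ψ n a) b z := by
      rw [← sum_filter_ne_zero]
      refine sum_le_sum_of_subset_of_nonneg (fun z hz => mem_box0.2 ?_) fun _ _ _ => abs_nonneg _
      have h2 := FMA.nrm_dir b z
      by_contra h
      refine (mem_filter.1 hz).2 ?_
      rw [ww, cut, cut, if_neg (by omega), if_neg (by omega), sub_self, abs_zero]
    have h2 := tv_cl (g := H9.nb (ell μ)) (c := 2 * a) (by positivity) n b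
      (Or.inl fun z => by linarith [d1 b z, cc_nonneg μ b z])
    have h3 := tv_cl (g := Ψ) (c := 2 * a) (by positivity) n b (by
      cases b
      · exact Or.inr fun z => by linarith [p2 z, v0 z, (S true z).2.2.1, cc_le hμ false z]
      · exact Or.inl fun z => by
          linarith [p1 z, v0 (z + dir true), (S false z).2.2.1, cc_le hμ true z])
    refine h1.trans ((sum_le_sum fun z _ => (cut_ww ha hb b z).trans (mul_le_mul_of_nonneg_left
      (max_le_add_of_nonneg (abs_nonneg _) (abs_nonneg _)) a0)).trans (le_trans ?_ hT))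
    rw [← mul_sum, sum_add_distrib]
    exact mul_le_mul_of_nonneg_left (by linarith) a0

end MWA
open MWA

theorem mw_glue (hE : EStmt) (hP : PsiStmt) (hS : SumStmt) : H9.MWStmt := by
  intro μ hs Ψ hΨ ε₀ hε₀
  by_contra hc
  rw [not_eventually] at hc
  obtain ⟨ε, e0, e1, e2⟩ : ∃ ε : ℝ, 0 < ε ∧ ε ≤ 1 ∧ ε ≤ ε₀ :=
    ⟨min 1 ε₀, lt_min one_pos hε₀, min_le_left _ _, min_le_right _ _⟩
  obtain ⟨C, C0, hE⟩ := hE
  refine hs.nd (mw_row μ hs.gibbs hs.triv (H9.SymA.noRay hs.nor) (C * (10 ^ 6 / ε ^ 3)) fun r => ?_)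
  obtain ⟨K, hK⟩ := ((box 0 r).finite_toSet.image
    fun z => max |H9.nb (ell μ) z| |Ψ z|).bddAbove
  obtain ⟨n, h1, h2, h3⟩ := (hc.and_eventually ((eventually_gt_atTop r).and
    (tendsto_natCast_atTop_atTop.eventually_ge_atTop (4 * K / ε)))).exists
  have n0 : 1 ≤ n := by omega
  have n1 : (1 : ℝ) ≤ n := by exact_mod_cast n0
  rw [div_le_iff₀ e0] at h3
  have a0 : 0 < ε * n / 4 := by positivity
  have a1 : 0 < 2 * (ε * n / 4) := by positivity
  have hb : ∀ z, nrm z = n → 2 * (2 * (ε * n / 4)) ≤ |H9.nb (ell μ) z| ∨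
      2 * (2 * (ε * n / 4)) ≤ |Ψ z| := fun z hz => by
    by_contra h
    rw [not_or, not_le, not_le] at h
    have h4 := mul_le_mul_of_nonneg_right e2 (zero_le_one.trans n1)
    refine h1 ⟨z, hz, by linarith [h.1], ?_⟩
    rw [show Ψ (0, 0) = 0 from hΨ.1, sub_zero]
    linarith [h.2]
  have hT : ∀ a : ℝ, ε * n / 4 ≤ a →
      1 / a * (2 * ((2 * n + 1) * (4 * a) + (2 * n + 1) ^ 2 * 2)) ≤ 168 * n / ε := fun a h => by
    have a2 : 0 < a := a0.trans_le h
    rw [one_div_mul_eq_div, div_le_div_iff₀ a2 e0]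
    have b1 : (2 * (n : ℝ) + 1) ≤ 3 * n := by linarith
    calc _ ≤ 2 * ((3 * n) * (4 * a) + (3 * n) ^ 2 * 2) * ε := by gcongr
      _ = 24 * n * a * ε + 144 * n * (ε * n / 4) := by ring
      _ ≤ 24 * n * a * 1 + 144 * n * a := by gcongr
      _ = _ := by ring
  have D1 := dat hS hs hΨ a0 (fun z hz => (hb z hz).imp (fun h => by linarith) fun h => by linarith)
    (U := (box 0 n).filter fun z => cut (H9.nb (ell μ)) Ψ n (ε * n / 4) z ≠ 0)
    (fun z hz => mem_filter.2 ⟨mem_box0.2 (cut_ne a0 hz).1.le, hz⟩) le_rfl (hT _ le_rfl)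
  have D2 := dat hS hs hΨ a1 hb (U := box 0 n) (fun z hz => mem_box0.2 (cut_ne a1 hz).1.le)
    (lam := 1 / (ε * n / 4)) (by gcongr; linarith) (hT _ (by linarith))
  have F := fm hS hP hs D2 (fun z => (cut_mem a1 z).2) n0 (fun z hz => (cut_ne a1 hz).1)
    (V := (box 0 n).filter fun z => cut (H9.nb (ell μ)) Ψ n (ε * n / 4) z ≠ 0)
    fun z hz => cut_one a1 (cut_ne a0 (mem_filter.1 hz).2)
  refine ⟨n, ps (cut (H9.nb (ell μ)) Ψ n (ε * n / 4)), fun m => ⟨ps_nonneg D1.h0 m,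
    (ps_le _ m (Nat.zero_le _)).trans (cut_mem a0 _).2⟩, fun m hm => ?_, fun m hm y hy => ?_,
    fun k => (hE μ _ _ _ _ _ D1 _ F k).trans (mul_le_mul_of_nonneg_left ?_ C0)⟩
  · obtain ⟨t, t1, t2⟩ := ps_ex (cut (H9.nb (ell μ)) Ψ n (ε * n / 4)) m
    have h4 := hm _ (mem_tow.2 ⟨t, t1, rfl⟩)
    have h5 := max_le_iff.1 (hK ⟨_, mem_coe.2 (mem_box0.2 h4), rfl⟩)
    rw [t2]
    exact cut_one a0 ⟨by omega, by linarith [h5.1], by linarith [h5.2]⟩
  · obtain ⟨t, t1, rfl⟩ := mem_tow.1 hy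
    exact (cut_ne a0 (((ps_nonneg D1.h0 m).lt_of_ne' hm).trans_le (ps_le _ m t1)).ne').1.le
  · have h4 : (((box 0 n).filter fun z => cut (H9.nb (ell μ)) Ψ n (ε * n / 4) z ≠ 0).card : ℝ) ≤
        9 * n ^ 2 := by
      have := (Nat.cast_le (α := ℝ)).2 (card_filter_le (box (0 : ℤ × ℤ) n)
        fun z => cut (H9.nb (ell μ)) Ψ n (ε * n / 4) z ≠ 0)
      rw [card_box] at this
      push_cast at this
      nlinarith
    refine (add_le_add_right (mul_le_mul_of_nonneg_left (add_le_add_left h4 _) (sq_nonneg _))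
      _).trans ?_
    have : 1 / (ε * n / 4) * (168 * n / ε) + (1 / (ε * n / 4)) ^ 2 * (9 * n ^ 2 + (9 * n ^ 2 +
        2 * (9 * n ^ 2 * (1 + 35 * n * (1 / (ε * n / 4))) + 7 * n * (168 * n / ε)))) =
        (1248 * ε + 77952) / ε ^ 3 := by
      field_simp
      ring
    rw [this]
    gcongr
    linarith

end Pool.Agent.MP_151d89_pr.H31
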